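import Mathlib

open Filter Topology

namespace Pool.Agent.H96cond

noncomputable section

/-- The square root of one half. -/
def rr : ℝ := Real.sqrt (1 / 2)

lemma rr_pos : 0 < rr := Real.sqrt_pos.2 (by norm_num)

lemma rr_sq : rr ^ 2 = 1 / 2 := Real.sq_sqrt (by norm_num)

lemma rr_le : rr ≤ 3 / 4 := by
  have h := rr_sq
  have h0 := rr_pos
  nlinarith

/-- The dyadic block of an index. -/
def blk (n : ℕ) : ℕ := Nat.log 2 (n + 1)

/-- The weight of an index. -/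
def bb (n : ℕ) : ℝ := rr ^ blk n

lemma bb_pos (n : ℕ) : 0 < bb n := pow_pos rr_pos _

lemma bb_sq (n : ℕ) : bb n ^ 2 = (1 / 2) ^ blk n := by
  rw [bb, ← pow_mul, mul_comm, pow_mul, rr_sq]

lemma blk_spec (n : ℕ) : 2 ^ blk n ≤ n + 1 ∧ n + 1 < 2 ^ (blk n + 1) :=
  ⟨Nat.pow_log_le_self 2 (by omega), Nat.lt_pow_succ_log_self (by norm_num) _⟩

lemma blk_mono {m n : ℕ} (h : m ≤ n) : blk m ≤ blk n := Nat.log_mono_right (by omega)

lemma blk_eq_iff (n k : ℕ) : blk n = k ↔ n ∈ Finset.Ico (2 ^ k - 1) (2 ^ (k + 1) - 1) := by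
  have h1 : 1 ≤ 2 ^ k := Nat.one_le_two_pow
  have h2 : 1 ≤ 2 ^ (k + 1) := Nat.one_le_two_pow
  rw [Finset.mem_Ico]
  constructor
  · intro h
    have := blk_spec n
    rw [h] at this
    omega
  · rintro ⟨ha, hb⟩
    rw [blk, Nat.log_eq_iff (Or.inr ⟨by norm_num, by omega⟩)]
    omega

/-- The indices of a block. -/
def bset (k : ℕ) : Finset ℕ := Finset.Ico (2 ^ k - 1) (2 ^ (k + 1) - 1)

lemma mem_bset {n k : ℕ} : n ∈ bset k ↔ blk n = k := (blk_eq_iff n k).symm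

lemma sum_bset_sq (k : ℕ) : ∑ n ∈ bset k, bb n ^ 2 = 1 := by
  have h : ∀ n ∈ bset k, bb n ^ 2 = (1 / 2) ^ k := by
    intro n hn
    rw [bb_sq, mem_bset.1 hn]
  rw [Finset.sum_congr rfl h, Finset.sum_const, bset, Nat.card_Ico]
  have : 2 ^ (k + 1) - 1 - (2 ^ k - 1) = 2 ^ k := by
    have h1 : 1 ≤ 2 ^ k := Nat.one_le_two_pow
    rw [pow_succ]
    omega
  rw [this, nsmul_eq_mul]
  push_cast
  rw [← mul_pow]
  norm_num

lemma bb_le (n : ℕ) : bb n ≤ Real.sqrt 2 / Real.sqrt (n + 1) := by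
  have h := (blk_spec n).2
  have h' : ((n : ℝ) + 1) ≤ 2 ^ (blk n + 1) := by exact_mod_cast h.le
  have hpos : (0 : ℝ) < (n : ℝ) + 1 := by positivity
  rw [← Real.sqrt_div (by norm_num)]
  apply Real.le_sqrt_of_sq_le
  rw [bb_sq, le_div_iff₀ hpos]
  calc (1 / 2 : ℝ) ^ blk n * (n + 1) ≤ (1 / 2 : ℝ) ^ blk n * 2 ^ (blk n + 1) := by gcongr
    _ = 2 := by
      rw [pow_succ, ← mul_assoc, ← mul_pow]
      norm_num

variable (𝕜 : Type) [RCLike 𝕜]

/-- The index set. -/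
abbrev Idx : Type := ℕ ⊕ (ℕ × ℕ)

/-- The ambient Hilbert space. -/
abbrev E0 : Type := lp (fun _ : Idx => 𝕜) 2

/-- The tree part of a vector. -/
def zvec (n : ℕ) : E0 𝕜 :=
  ∑ j ∈ Finset.range (blk n + 1), if 1 ≤ blk n / 2 ^ j then
    lp.single 2 (Sum.inr (j, blk n / 2 ^ j)) ((rr ^ j * bb n : ℝ) : 𝕜) else 0

/-- The unit coordinate part. -/
def yvec (n : ℕ) : E0 𝕜 := lp.single 2 (Sum.inl n) (1 : 𝕜)

/-- The vectors. -/
def evec (n : ℕ) : E0 𝕜 := yvec 𝕜 n + zvec 𝕜 n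

lemma zvec_inl (n m : ℕ) : zvec 𝕜 n (Sum.inl m) = 0 := by
  rw [zvec, lp.coeFn_sum, Finset.sum_apply]
  apply Finset.sum_eq_zero
  intro j _
  split_ifs
  · exact lp.single_apply_ne _ _ _ (by simp)
  · rfl

lemma yvec_inl (n m : ℕ) : yvec 𝕜 n (Sum.inl m) = if m = n then 1 else 0 := by
  split_ifs with h
  · subst h
    exact lp.single_apply_self _ _ _
  · exact lp.single_apply_ne _ _ _ (by simpa using h)

lemma yvec_inr (n : ℕ) (q : ℕ × ℕ) : yvec 𝕜 n (Sum.inr q) = 0 :=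
  lp.single_apply_ne _ _ _ (by simp)

lemma zvec_inr (n j p : ℕ) : zvec 𝕜 n (Sum.inr (j, p)) =
    if 1 ≤ p ∧ blk n / 2 ^ j = p then ((rr ^ j * bb n : ℝ) : 𝕜) else 0 := by
  rw [zvec, lp.coeFn_sum, Finset.sum_apply]
  by_cases hj : j ∈ Finset.range (blk n + 1)
  · rw [Finset.sum_eq_single_of_mem j hj]
    · by_cases h1 : 1 ≤ blk n / 2 ^ j
      · rw [if_pos h1]
        by_cases h2 : blk n / 2 ^ j = p
        · subst h2
          rw [if_pos ⟨h1, rfl⟩]
          exact lp.single_apply_self _ _ _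
        · rw [if_neg (fun h => h2 h.2)]
          exact lp.single_apply_ne _ _ _ (by simpa using fun h => h2 h.symm)
      · rw [if_neg h1, if_neg (fun h : 1 ≤ p ∧ blk n / 2 ^ j = p => h1 (h.2.symm ▸ h.1))]
        rfl
    · intro i _ hij
      split_ifs
      · exact lp.single_apply_ne _ _ _ (by simpa using fun h => absurd h.symm hij)
      · rfl
  · rw [Finset.sum_eq_zero, if_neg]
    · rintro ⟨h1, h2⟩
      apply hj
      rw [Finset.mem_range]
      by_contra hlt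
      have : blk n < 2 ^ j := by
        calc blk n < j := by omega
          _ < 2 ^ j := Nat.lt_two_pow_self
      rw [Nat.div_eq_of_lt this] at h2
      omega
    · intro i hi
      split_ifs
      · refine lp.single_apply_ne _ _ _ ?_
        intro h
        simp only [Sum.inr.injEq, Prod.mk.injEq] at h
        exact hj (h.1 ▸ hi)
      · rfl

lemma evec_inl (n m : ℕ) : evec 𝕜 n (Sum.inl m) = if m = n then 1 else 0 := by
  rw [evec, lp.coeFn_add, Pi.add_apply, yvec_inl, zvec_inl, add_zero]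

lemma evec_inr (n j p : ℕ) : evec 𝕜 n (Sum.inr (j, p)) =
    if 1 ≤ p ∧ blk n / 2 ^ j = p then ((rr ^ j * bb n : ℝ) : 𝕜) else 0 := by
  rw [evec, lp.coeFn_add, Pi.add_apply, yvec_inr, zvec_inr, zero_add]

/-- The Hilbert space. -/
def HH : Submodule 𝕜 (E0 𝕜) := (Submodule.span 𝕜 (Set.range (evec 𝕜))).topologicalClosure

lemma evec_mem (n : ℕ) : evec 𝕜 n ∈ HH 𝕜 :=
  Submodule.le_topologicalClosure _ (Submodule.subset_span ⟨n, rfl⟩)

/-- Coordinate functionals. -/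
def ev (i : Idx) : E0 𝕜 →L[𝕜] 𝕜 := lp.evalCLM 𝕜 (fun _ : Idx => 𝕜) 2 i

lemma ev_apply (i : Idx) (x : E0 𝕜) : ev 𝕜 i x = x i := rfl

lemma rel_of (L : E0 𝕜 →L[𝕜] 𝕜) (hL : ∀ n, L (evec 𝕜 n) = 0) {x : E0 𝕜} (hx : x ∈ HH 𝕜) :
    L x = 0 := by
  have h1 : HH 𝕜 ≤ LinearMap.ker (L : E0 𝕜 →ₗ[𝕜] 𝕜) := by
    apply Submodule.topologicalClosure_minimal
    · rw [Submodule.span_le]
      rintro _ ⟨n, rfl⟩
      exact hL n
    · exact L.isClosed_ker
  exact h1 hx

lemma rel_zero {x : E0 𝕜} (hx : x ∈ HH 𝕜) (k : ℕ) (hk : 1 ≤ k) :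
    x (Sum.inr (0, k)) = ∑ n ∈ bset k, (bb n : 𝕜) * x (Sum.inl n) := by
  have h := rel_of 𝕜 (ev 𝕜 (Sum.inr (0, k)) - ∑ n ∈ bset k, (bb n : 𝕜) • ev 𝕜 (Sum.inl n))
    (by
      intro m
      rw [sub_apply, sum_apply, ev_apply, evec_inr]
      simp only [smul_apply, ev_apply, evec_inl, smul_eq_mul, mul_ite, mul_one,
        mul_zero, Finset.sum_ite_eq', pow_zero, Nat.div_one, one_mul]
      by_cases h : blk m = k
      · rw [if_pos ⟨hk, h⟩, if_pos (mem_bset.2 h), sub_self]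
      · rw [if_neg (fun h' => h h'.2), if_neg (fun h' => h (mem_bset.1 h')), sub_self]) hx
  rw [sub_apply, sum_apply, ev_apply, sub_eq_zero] at h
  rw [h]
  rfl

lemma rel_succ {x : E0 𝕜} (hx : x ∈ HH 𝕜) (j p : ℕ) (hp : 1 ≤ p) :
    x (Sum.inr (j + 1, p)) = (rr : 𝕜) * (x (Sum.inr (j, 2 * p)) + x (Sum.inr (j, 2 * p + 1))) := by
  have h := rel_of 𝕜 (ev 𝕜 (Sum.inr (j + 1, p)) - (rr : 𝕜) • (ev 𝕜 (Sum.inr (j, 2 * p)) +
      ev 𝕜 (Sum.inr (j, 2 * p + 1))))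
    (by
      intro m
      rw [sub_apply, smul_apply,
        add_apply, ev_apply, ev_apply, ev_apply, evec_inr, evec_inr, evec_inr,
        pow_succ 2 j, ← Nat.div_div_eq_div_mul]
      generalize blk m / 2 ^ j = t
      by_cases h1 : t = 2 * p
      · rw [if_pos ⟨hp, by omega⟩, if_pos ⟨by omega, h1⟩, if_neg (by omega)]
        push_cast
        simp only [smul_eq_mul]
        ring
      · by_cases h2 : t = 2 * p + 1
        · rw [if_pos ⟨hp, by omega⟩, if_neg (by omega), if_pos ⟨by omega, h2⟩]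
          push_cast
          simp only [smul_eq_mul]
          ring
        · rw [if_neg (by omega), if_neg (by omega), if_neg (by omega)]
          simp) hx
  rw [sub_apply, smul_apply,
        add_apply, ev_apply, ev_apply, ev_apply, sub_eq_zero] at h
  rw [h]
  rfl

end

end Pool.Agent.H96cond
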