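import Mathlib
import Pool.Agent.H96cond.Space

open Filter Topology

namespace Pool.Agent.H96cond

noncomputable section

variable (𝕜 : Type) [RCLike 𝕜]

lemma sum_sq_le (x : E0 𝕜) (s : Finset Idx) : ∑ i ∈ s, ‖x i‖ ^ 2 ≤ ‖x‖ ^ 2 := by
  have h := lp.sum_rpow_le_norm_rpow (p := 2) (by norm_num) x s
  simpa using h

lemma norm_le_of_sum (x : E0 𝕜) (C : ℝ) (hC : 0 ≤ C)
    (h : ∀ s : Finset Idx, ∑ i ∈ s, ‖x i‖ ^ 2 ≤ C ^ 2) : ‖x‖ ≤ C := by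
  apply lp.norm_le_of_forall_sum_le (p := 2) (by norm_num) hC
  intro s
  simpa using h s

/-- Sum over a finite set of indices. -/
def PS (s : Finset ℕ) (x : E0 𝕜) : E0 𝕜 := ∑ n ∈ s, x (Sum.inl n) • evec 𝕜 n

lemma PS_mem (s : Finset ℕ) (x : E0 𝕜) : PS 𝕜 s x ∈ HH 𝕜 :=
  Submodule.sum_mem _ fun n _ => Submodule.smul_mem _ _ (evec_mem 𝕜 n)

lemma sum_inl (s : Finset ℕ) (c : ℕ → 𝕜) (m : ℕ) :
    (∑ n ∈ s, c n • evec 𝕜 n : E0 𝕜) (Sum.inl m) = if m ∈ s then c m else 0 := by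
  rw [lp.coeFn_sum, Finset.sum_apply]
  have : ∀ n ∈ s, (c n • evec 𝕜 n : E0 𝕜) (Sum.inl m) = if m = n then c n else 0 := by
    intro n _
    rw [lp.coeFn_smul, Pi.smul_apply, evec_inl, smul_eq_mul, mul_ite, mul_one, mul_zero]
  rw [Finset.sum_congr rfl this, Finset.sum_ite_eq]

lemma PS_inl (s : Finset ℕ) (x : E0 𝕜) (m : ℕ) :
    PS 𝕜 s x (Sum.inl m) = if m ∈ s then x (Sum.inl m) else 0 :=
  sum_inl 𝕜 s (fun n => x (Sum.inl n)) m

lemma sum_inl_sq_le (x : E0 𝕜) (s : Finset ℕ) : ∑ n ∈ s, ‖x (Sum.inl n)‖ ^ 2 ≤ ‖x‖ ^ 2 := by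
  have h := sum_sq_le 𝕜 x (s.map ⟨Sum.inl, Sum.inl_injective⟩)
  rwa [Finset.sum_map] at h

lemma level_lt {x : E0 𝕜} (hx : x ∈ HH 𝕜) (K : ℕ) (j : ℕ) : ∀ p, 1 ≤ p → p < blk K / 2 ^ j →
    PS 𝕜 (Finset.range K) x (Sum.inr (j, p)) = x (Sum.inr (j, p)) := by
  induction j with
  | zero =>
    intro p hp hlt
    rw [rel_zero 𝕜 (PS_mem 𝕜 _ _) p hp, rel_zero 𝕜 hx p hp]
    apply Finset.sum_congr rfl
    intro n hn
    rw [PS_inl, if_pos]
    rw [Finset.mem_range]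
    by_contra hle
    have := blk_mono (not_lt.1 hle)
    rw [mem_bset.1 hn] at this
    simp at hlt
    omega
  | succ j ih =>
    intro p hp hlt
    rw [pow_succ, ← Nat.div_div_eq_div_mul] at hlt
    rw [rel_succ 𝕜 (PS_mem 𝕜 _ _) j p hp, rel_succ 𝕜 hx j p hp, ih _ (by omega) (by omega),
      ih _ (by omega) (by omega)]

lemma level_gt {x : E0 𝕜} (K : ℕ) (j : ℕ) : ∀ p, blk K / 2 ^ j < p →
    PS 𝕜 (Finset.range K) x (Sum.inr (j, p)) = 0 := by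
  induction j with
  | zero =>
    intro p hlt
    rw [rel_zero 𝕜 (PS_mem 𝕜 _ _) p (by omega)]
    apply Finset.sum_eq_zero
    intro n hn
    rw [PS_inl, if_neg, mul_zero]
    rw [Finset.mem_range]
    intro hle
    have := blk_mono hle.le
    rw [mem_bset.1 hn] at this
    simp at hlt
    omega
  | succ j ih =>
    intro p hlt
    rw [pow_succ, ← Nat.div_div_eq_div_mul] at hlt
    generalize blk K / 2 ^ j = P at hlt ih
    rw [rel_succ 𝕜 (PS_mem 𝕜 _ _) j p (by omega), ih _ (by omega), ih _ (by omega), add_zero,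
      mul_zero]

lemma block_le (y : E0 𝕜) (hy : y ∈ HH 𝕜) (k : ℕ) (hk : 1 ≤ k) :
    ‖y (Sum.inr (0, k))‖ ^ 2 ≤ ∑ n ∈ bset k, ‖y (Sum.inl n)‖ ^ 2 := by
  rw [rel_zero 𝕜 hy k hk]
  have h1 : ‖∑ n ∈ bset k, (bb n : 𝕜) * y (Sum.inl n)‖ ≤ ∑ n ∈ bset k, bb n * ‖y (Sum.inl n)‖ := by
    refine (norm_sum_le _ _).trans (le_of_eq (Finset.sum_congr rfl fun n _ => ?_))
    rw [norm_mul, RCLike.norm_ofReal, abs_of_pos (bb_pos n)]
  have h2 := Finset.sum_mul_sq_le_sq_mul_sq (bset k) bb (fun n => ‖y (Sum.inl n)‖)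
  rw [sum_bset_sq, one_mul] at h2
  refine le_trans ?_ h2
  gcongr

/-- Size at the boundary node of level `j`. -/
def uu (K : ℕ) (x : E0 𝕜) (j : ℕ) : ℝ :=
  if 1 ≤ blk K / 2 ^ j then ‖PS 𝕜 (Finset.range K) x (Sum.inr (j, blk K / 2 ^ j))‖ else 0

/-- Size at the left sibling of the boundary node of level `j`. -/
def tt (K : ℕ) (x : E0 𝕜) (j : ℕ) : ℝ :=
  if 2 ≤ blk K / 2 ^ j then ‖x (Sum.inr (j, blk K / 2 ^ j - 1))‖ else 0

lemma uu_nonneg (K : ℕ) (x : E0 𝕜) (j : ℕ) : 0 ≤ uu 𝕜 K x j := by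
  rw [uu]; split_ifs <;> positivity

lemma tt_nonneg (K : ℕ) (x : E0 𝕜) (j : ℕ) : 0 ≤ tt 𝕜 K x j := by
  rw [tt]; split_ifs <;> positivity

lemma uu_succ {x : E0 𝕜} (hx : x ∈ HH 𝕜) (K j : ℕ) :
    uu 𝕜 K x (j + 1) ≤ rr * (uu 𝕜 K x j + tt 𝕜 K x j) := by
  have hu := uu_nonneg 𝕜 K x j
  have ht := tt_nonneg 𝕜 K x j
  have hr := rr_pos
  have hdd : blk K / 2 ^ (j + 1) = blk K / 2 ^ j / 2 := by
    rw [pow_succ, ← Nat.div_div_eq_div_mul]
  by_cases h1 : 1 ≤ blk K / 2 ^ (j + 1)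
  · have hL : uu 𝕜 K x (j + 1) =
        ‖PS 𝕜 (Finset.range K) x (Sum.inr (j + 1, blk K / 2 ^ (j + 1)))‖ := by
      rw [uu, if_pos h1]
    rw [hL, rel_succ 𝕜 (PS_mem 𝕜 _ _) j _ h1, norm_mul, RCLike.norm_ofReal, abs_of_pos hr]
    apply mul_le_mul_of_nonneg_left _ hr.le
    have hlt := level_lt 𝕜 hx K j
    have hgt := level_gt 𝕜 (x := x) K j
    rw [uu, tt, hdd]
    rw [hdd] at h1
    generalize blk K / 2 ^ j = P at *
    rw [if_pos (by omega), if_pos (by omega)]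
    obtain h | h : P = 2 * (P / 2) ∨ P = 2 * (P / 2) + 1 := by omega
    · rw [← h, hgt (P + 1) (by omega), add_zero]
      linarith [norm_nonneg (x (Sum.inr (j, P - 1)))]
    · rw [← h, hlt (2 * (P / 2)) (by omega) (by omega)]
      have h2 : P - 1 = 2 * (P / 2) := by omega
      rw [h2]
      refine (norm_add_le _ _).trans ?_
      linarith
  · rw [uu, if_neg h1]
    positivity

lemma uu_sq_succ {x : E0 𝕜} (hx : x ∈ HH 𝕜) (K j : ℕ) :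
    uu 𝕜 K x (j + 1) ^ 2 ≤ 3 / 4 * uu 𝕜 K x j ^ 2 + 3 / 2 * tt 𝕜 K x j ^ 2 := by
  have h := uu_succ 𝕜 hx K j
  have h1 : uu 𝕜 K x (j + 1) ^ 2 ≤ (rr * (uu 𝕜 K x j + tt 𝕜 K x j)) ^ 2 := by
    have := uu_nonneg 𝕜 K x (j + 1)
    gcongr
  rw [mul_pow, rr_sq] at h1
  nlinarith [sq_nonneg (uu 𝕜 K x j - 2 * tt 𝕜 K x j)]

lemma sum_uu {x : E0 𝕜} (hx : x ∈ HH 𝕜) (K n : ℕ) :
    ∑ j ∈ Finset.range (n + 1), uu 𝕜 K x j ^ 2 ≤
      4 * uu 𝕜 K x 0 ^ 2 + 6 * ∑ j ∈ Finset.range n, tt 𝕜 K x j ^ 2 := by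
  have h1 : ∑ j ∈ Finset.range (n + 1), uu 𝕜 K x j ^ 2 ≤ uu 𝕜 K x 0 ^ 2 +
      (3 / 4 * ∑ j ∈ Finset.range n, uu 𝕜 K x j ^ 2 +
        3 / 2 * ∑ j ∈ Finset.range n, tt 𝕜 K x j ^ 2) := by
    rw [Finset.sum_range_succ', add_comm, Finset.mul_sum, Finset.mul_sum, ← Finset.sum_add_distrib]
    gcongr with j _
    exact uu_sq_succ 𝕜 hx K j
  have h2 : ∑ j ∈ Finset.range n, uu 𝕜 K x j ^ 2 ≤ ∑ j ∈ Finset.range (n + 1), uu 𝕜 K x j ^ 2 := by
    rw [Finset.sum_range_succ]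
    nlinarith [sq_nonneg (uu 𝕜 K x n)]
  linarith

lemma uu_zero {x : E0 𝕜} (K : ℕ) : uu 𝕜 K x 0 ^ 2 ≤ ‖x‖ ^ 2 := by
  rw [uu]
  split_ifs with h
  · refine (block_le 𝕜 _ (PS_mem 𝕜 _ _) _ (by simpa using h)).trans ?_
    refine le_trans ?_ (sum_inl_sq_le 𝕜 x (bset (blk K / 2 ^ 0)))
    apply Finset.sum_le_sum
    intro n _
    rw [PS_inl]
    split_ifs
    · exact le_rfl
    · simp
      
  · simp

lemma sum_tt (x : E0 𝕜) (K n : ℕ) : ∑ j ∈ Finset.range n, tt 𝕜 K x j ^ 2 ≤ ‖x‖ ^ 2 := by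
  have hinj : Function.Injective (fun j : ℕ => (Sum.inr (j, blk K / 2 ^ j - 1) : Idx)) := by
    intro i j h
    simp only [Sum.inr.injEq, Prod.mk.injEq] at h
    exact h.1
  have h := sum_sq_le 𝕜 x ((Finset.range n).map ⟨_, hinj⟩)
  rw [Finset.sum_map] at h
  refine le_trans (Finset.sum_le_sum fun j _ => ?_) h
  rw [tt]
  split_ifs
  · exact le_rfl
  · simp

theorem proj_bound {x : E0 𝕜} (hx : x ∈ HH 𝕜) (K : ℕ) :
    ‖PS 𝕜 (Finset.range K) x‖ ≤ 4 * ‖x‖ := by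
  apply norm_le_of_sum _ _ _ (by positivity)
  intro s
  -- a bound for the levels
  obtain ⟨n, hn⟩ : ∃ n : ℕ, ∀ i ∈ s, ∀ j p, i = Sum.inr (j, p) → j < n := by
    obtain ⟨M, hM⟩ := (s.image (fun i => Sum.elim (fun _ => 0) (fun q : ℕ × ℕ => q.1) i)).bddAbove
    refine ⟨M + 1, fun i hi j p h => ?_⟩
    have := hM (Finset.mem_coe.2 (Finset.mem_image_of_mem _ hi))
    rw [h] at this
    simp at this
    omega
  let β : Idx → ℝ := Sum.elim (fun _ => 0)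
    (fun q : ℕ × ℕ => if q.2 = blk K / 2 ^ q.1 then uu 𝕜 K x q.1 ^ 2 else 0)
  have hβ0 : ∀ i, 0 ≤ β i := by
    rintro (m | q)
    · exact le_rfl
    · simp only [β, Sum.elim_inr]
      split_ifs <;> positivity
  have hpt : ∀ i, ‖PS 𝕜 (Finset.range K) x i‖ ^ 2 ≤ ‖x i‖ ^ 2 + β i := by
    rintro (m | ⟨j, p⟩)
    · rw [PS_inl]
      simp only [β, Sum.elim_inl, add_zero]
      split_ifs
      · exact le_rfl
      · simp
    · by_cases hp0 : 1 ≤ p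
      · rcases lt_trichotomy p (blk K / 2 ^ j) with h | h | h
        · rw [level_lt 𝕜 hx K j p hp0 h]
          linarith [hβ0 (Sum.inr (j, p))]
        · simp only [β, Sum.elim_inr, if_pos h]
          rw [uu, if_pos (h ▸ hp0), ← h]
          linarith [sq_nonneg ‖x (Sum.inr (j, p))‖]
        · rw [level_gt 𝕜 K j p h]
          rw [norm_zero, zero_pow two_ne_zero]
          exact add_nonneg (sq_nonneg _) (hβ0 _)
      · have : PS 𝕜 (Finset.range K) x (Sum.inr (j, p)) = 0 := by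
          have h := rel_of 𝕜 (ev 𝕜 (Sum.inr (j, p))) (fun m => by
            rw [ev_apply, evec_inr, if_neg (fun h => hp0 h.1)]) (PS_mem 𝕜 (Finset.range K) x)
          exact h
        rw [this]
        rw [norm_zero, zero_pow two_ne_zero]
        exact add_nonneg (sq_nonneg _) (hβ0 _)
  have hinj : Function.Injective (fun j : ℕ => (Sum.inr (j, blk K / 2 ^ j) : Idx)) := by
    intro i j h
    simp only [Sum.inr.injEq, Prod.mk.injEq] at h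
    exact h.1
  have hβs : ∑ i ∈ s, β i ≤ ∑ j ∈ Finset.range (n + 1), uu 𝕜 K x j ^ 2 := by
    have h1 : ∑ i ∈ (Finset.range (n + 1)).map ⟨_, hinj⟩, β i =
        ∑ j ∈ Finset.range (n + 1), uu 𝕜 K x j ^ 2 := by
      rw [Finset.sum_map]
      apply Finset.sum_congr rfl
      intro j _
      simp [β]
    rw [← h1, ← Finset.sum_filter_ne_zero]
    apply Finset.sum_le_sum_of_subset_of_nonneg
    · intro i hi
      rw [Finset.mem_filter] at hi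
      obtain ⟨his, hib⟩ := hi
      rcases i with m | ⟨j, p⟩
      · exact absurd rfl hib
      · have hjn := hn _ his j p rfl
        have hp : p = blk K / 2 ^ j := by
          by_contra hne
          exact hib (by simp only [β, Sum.elim_inr]; rw [if_neg hne])
        rw [Finset.mem_map]
        exact ⟨j, Finset.mem_range.2 (by omega), by simp [hp]⟩
    · intro i _ _
      exact hβ0 i
  calc ∑ i ∈ s, ‖PS 𝕜 (Finset.range K) x i‖ ^ 2 ≤ ∑ i ∈ s, (‖x i‖ ^ 2 + β i) :=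
        Finset.sum_le_sum fun i _ => hpt i
    _ = ∑ i ∈ s, ‖x i‖ ^ 2 + ∑ i ∈ s, β i := Finset.sum_add_distrib
    _ ≤ ‖x‖ ^ 2 + (4 * ‖x‖ ^ 2 + 6 * ‖x‖ ^ 2) := by
        have h1 := sum_sq_le 𝕜 x s
        have h2 := sum_uu 𝕜 hx K n
        have h3 := uu_zero 𝕜 (x := x) K
        have h4 := sum_tt 𝕜 x K n
        linarith
    _ ≤ (4 * ‖x‖) ^ 2 := by nlinarith [sq_nonneg ‖x‖]

end

end Pool.Agent.H96cond
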