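import Mathlib
import Pool.Agent.H96cond.Proj

open Filter Topology

namespace Pool.Agent.H96cond

noncomputable section

variable (𝕜 : Type) [RCLike 𝕜]

lemma norm_zvec (n : ℕ) : ‖zvec 𝕜 n‖ ≤ 4 * bb n := by
  have hb := bb_pos n
  have hr := rr_pos
  have h1 : ‖zvec 𝕜 n‖ ≤ ∑ j ∈ Finset.range (blk n + 1), rr ^ j * bb n := by
    rw [zvec]
    refine (norm_sum_le _ _).trans (Finset.sum_le_sum fun j _ => ?_)
    split_ifs
    · rw [lp.norm_single (by norm_num), RCLike.norm_ofReal, abs_of_pos (by positivity)]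
    · rw [norm_zero]; positivity
  refine h1.trans ?_
  rw [← Finset.sum_mul]
  apply mul_le_mul_of_nonneg_right _ hb.le
  have h2 : ∑ j ∈ Finset.range (blk n + 1), rr ^ j ≤
      ∑ j ∈ Finset.range (blk n + 1), (3 / 4 : ℝ) ^ j := by
    gcongr
    exact rr_le
  refine h2.trans ?_
  have h3 := mul_neg_geom_sum (3 / 4 : ℝ) (blk n + 1)
  have h4 : (0 : ℝ) ≤ (3 / 4) ^ (blk n + 1) := by positivity
  linarith

lemma norm_ysum (s : Finset ℕ) (c : ℕ → 𝕜) :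
    ‖∑ n ∈ s, c n • yvec 𝕜 n‖ = Real.sqrt (∑ n ∈ s, ‖c n‖ ^ 2) := by
  have h1 : ∑ n ∈ s, c n • yvec 𝕜 n =
      ∑ i ∈ s.map ⟨Sum.inl, Sum.inl_injective⟩,
        lp.single (E := fun _ : Idx => 𝕜) 2 i (Sum.elim c (fun _ => 0) i) := by
    rw [Finset.sum_map]
    apply Finset.sum_congr rfl
    intro n _
    rw [yvec, ← lp.single_smul]
    simp
  have h2 := lp.norm_sum_single (p := 2) (E := fun _ : Idx => 𝕜) (by norm_num)
    (Sum.elim c (fun _ => 0)) (s.map ⟨Sum.inl, Sum.inl_injective⟩)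
  rw [← h1, Finset.sum_map] at h2
  simp only [ENNReal.toReal_ofNat, Real.rpow_ofNat, Function.Embedding.coeFn_mk,
    Sum.elim_inl] at h2
  rw [← h2, Real.sqrt_sq (norm_nonneg _)]

theorem upper_bound (s : Finset ℕ) (c : ℕ → 𝕜) :
    ‖∑ n ∈ s, c n • evec 𝕜 n‖ ≤
      Real.sqrt (∑ n ∈ s, ‖c n‖ ^ 2) + 6 * ∑ n ∈ s, ‖c n‖ / Real.sqrt (n + 1) := by
  have h1 : ∑ n ∈ s, c n • evec 𝕜 n = ∑ n ∈ s, c n • yvec 𝕜 n + ∑ n ∈ s, c n • zvec 𝕜 n := by
    rw [← Finset.sum_add_distrib]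
    apply Finset.sum_congr rfl
    intro n _
    rw [evec, smul_add]
  rw [h1]
  refine (norm_add_le _ _).trans ?_
  rw [norm_ysum]
  gcongr
  rw [Finset.mul_sum]
  refine (norm_sum_le _ _).trans (Finset.sum_le_sum fun n _ => ?_)
  rw [norm_smul]
  have h2 := norm_zvec 𝕜 n
  have h3 := bb_le n
  have hs : 0 < Real.sqrt ((n : ℝ) + 1) := Real.sqrt_pos.2 (by positivity)
  have h4 : 4 * Real.sqrt 2 ≤ 6 := by
    have : Real.sqrt 2 ≤ 3 / 2 := by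
      rw [Real.sqrt_le_left (by norm_num)]
      norm_num
    linarith
  calc ‖c n‖ * ‖zvec 𝕜 n‖ ≤ ‖c n‖ * (4 * (Real.sqrt 2 / Real.sqrt (n + 1))) := by
        gcongr
        linarith
    _ = (4 * Real.sqrt 2) * (‖c n‖ / Real.sqrt (n + 1)) := by ring
    _ ≤ 6 * (‖c n‖ / Real.sqrt (n + 1)) := by gcongr

lemma PS_sub (s : Finset ℕ) (x y : E0 𝕜) : PS 𝕜 s (x - y) = PS 𝕜 s x - PS 𝕜 s y := by
  rw [PS, PS, PS, ← Finset.sum_sub_distrib]
  apply Finset.sum_congr rfl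
  intro n _
  rw [← sub_smul]
  rfl

lemma PS_add (s : Finset ℕ) (x y : E0 𝕜) : PS 𝕜 s (x + y) = PS 𝕜 s x + PS 𝕜 s y := by
  rw [PS, PS, PS, ← Finset.sum_add_distrib]
  apply Finset.sum_congr rfl
  intro n _
  rw [← add_smul]
  rfl

lemma PS_smul (s : Finset ℕ) (c : 𝕜) (x : E0 𝕜) : PS 𝕜 s (c • x) = c • PS 𝕜 s x := by
  rw [PS, PS, Finset.smul_sum]
  apply Finset.sum_congr rfl
  intro n _
  rw [smul_smul]
  rfl

lemma PS_evec (s : Finset ℕ) (n : ℕ) (hn : n ∈ s) : PS 𝕜 s (evec 𝕜 n) = evec 𝕜 n := by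
  rw [PS]
  have : ∀ m ∈ s, (evec 𝕜 n) (Sum.inl m) • evec 𝕜 m = if m = n then evec 𝕜 m else 0 := by
    intro m _
    rw [evec_inl]
    split_ifs
    · exact one_smul _ _
    · exact zero_smul _ _
  rw [Finset.sum_congr rfl this, Finset.sum_ite_eq', if_pos hn]

lemma PS_span (y : E0 𝕜) (hy : y ∈ Submodule.span 𝕜 (Set.range (evec 𝕜))) :
    ∃ K0, ∀ K ≥ K0, PS 𝕜 (Finset.range K) y = y := by
  induction hy using Submodule.span_induction with
  | mem x hx =>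
    obtain ⟨n, rfl⟩ := hx
    exact ⟨n + 1, fun K hK => PS_evec 𝕜 _ n (Finset.mem_range.2 (by omega))⟩
  | zero =>
    refine ⟨0, fun K _ => ?_⟩
    have := PS_smul 𝕜 (Finset.range K) (0 : 𝕜) 0
    rwa [zero_smul, zero_smul] at this
  | add x y _ _ hx hy =>
    obtain ⟨K1, h1⟩ := hx
    obtain ⟨K2, h2⟩ := hy
    refine ⟨max K1 K2, fun K hK => ?_⟩
    rw [PS_add, h1 K (le_trans (le_max_left _ _) hK), h2 K (le_trans (le_max_right _ _) hK)]
  | smul c x _ hx =>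
    obtain ⟨K1, h1⟩ := hx
    exact ⟨K1, fun K hK => by rw [PS_smul, h1 K hK]⟩

theorem PS_tendsto {x : E0 𝕜} (hx : x ∈ HH 𝕜) :
    Tendsto (fun K => PS 𝕜 (Finset.range K) x) atTop (𝓝 x) := by
  rw [Metric.tendsto_atTop]
  intro ε hε
  have hx' : x ∈ closure (Submodule.span 𝕜 (Set.range (evec 𝕜)) : Set (E0 𝕜)) := hx
  rw [Metric.mem_closure_iff] at hx'
  obtain ⟨y, hy, hxy⟩ := hx' (ε / 5) (by positivity)
  obtain ⟨K0, hK0⟩ := PS_span 𝕜 y hy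
  refine ⟨K0, fun K hK => ?_⟩
  have hyH : y ∈ HH 𝕜 := Submodule.le_topologicalClosure _ hy
  have h1 : PS 𝕜 (Finset.range K) x - x = PS 𝕜 (Finset.range K) (x - y) - (x - y) := by
    rw [PS_sub, hK0 K hK]
    abel
  rw [dist_eq_norm, h1]
  rw [dist_eq_norm] at hxy
  have h2 := proj_bound 𝕜 (Submodule.sub_mem _ hx hyH) K
  have h3 := norm_sub_le (PS 𝕜 (Finset.range K) (x - y)) (x - y)
  linarith

end

end Pool.Agent.H96cond
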