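import Mathlib

open Filter Topology

namespace Pool.Agent.H96cond

noncomputable section

/-- An abstract system of vectors and coordinate functionals. -/
structure Sys (𝕜 : Type) [RCLike 𝕜] (H : Type) [NormedAddCommGroup H] [NormedSpace 𝕜 H] where
  e : ℕ → H
  a : ℕ → H →L[𝕜] 𝕜
  biorth : ∀ m n, a m (e n) = if m = n then 1 else 0
  l2 : ∀ (s : Finset ℕ) (h : H), ∑ n ∈ s, ‖a n h‖ ^ 2 ≤ ‖h‖ ^ 2
  up : ∀ (s : Finset ℕ) (c : ℕ → 𝕜), ‖∑ n ∈ s, c n • e n‖ ≤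
    Real.sqrt (∑ n ∈ s, ‖c n‖ ^ 2) + 6 * ∑ n ∈ s, ‖c n‖ / Real.sqrt (n + 1)
  proj : ∀ (K : ℕ) (h : H), ‖∑ n ∈ Finset.range K, a n h • e n‖ ≤ 4 * ‖h‖
  conv : ∀ h, Tendsto (fun K => ∑ n ∈ Finset.range K, a n h • e n) atTop (𝓝 h)

lemma sum_inv_sqrt_range (N : ℕ) :
    ∑ n ∈ Finset.range N, 1 / Real.sqrt ((n : ℝ) + 1) ≤ 2 * Real.sqrt N := by
  induction N with
  | zero => simp
  | succ N ih =>
    rw [Finset.sum_range_succ]
    have h1 : 0 ≤ Real.sqrt N := Real.sqrt_nonneg _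
    have h2 : 0 < Real.sqrt ((N : ℝ) + 1) := Real.sqrt_pos.2 (by positivity)
    have h3 : Real.sqrt N ^ 2 = N := Real.sq_sqrt (by positivity)
    have h4 : Real.sqrt ((N : ℝ) + 1) ^ 2 = N + 1 := Real.sq_sqrt (by positivity)
    have h5 : 1 / Real.sqrt ((N : ℝ) + 1) ≤ 2 * (Real.sqrt ((N : ℝ) + 1) - Real.sqrt N) := by
      rw [div_le_iff₀ h2]
      nlinarith [sq_nonneg (Real.sqrt ((N : ℝ) + 1) - Real.sqrt N)]
    push_cast
    linarith

lemma sum_inv_sqrt (E : Finset ℕ) :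
    ∑ n ∈ E, 1 / Real.sqrt ((n : ℝ) + 1) ≤ 3 * Real.sqrt E.card := by
  set N := E.card with hN
  rw [← Finset.sum_filter_add_sum_filter_not E (fun n => n < N)]
  have h1 : ∑ n ∈ E with n < N, 1 / Real.sqrt ((n : ℝ) + 1) ≤ 2 * Real.sqrt N := by
    refine le_trans ?_ (sum_inv_sqrt_range N)
    apply Finset.sum_le_sum_of_subset_of_nonneg
    · intro n hn
      exact Finset.mem_range.2 (Finset.mem_filter.1 hn).2
    · intro n _ _
      positivity
  have h2 : ∑ n ∈ E with ¬ n < N, 1 / Real.sqrt ((n : ℝ) + 1) ≤ Real.sqrt N := by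
    rcases Nat.eq_zero_or_pos N with h0 | h0
    · have : E = ∅ := Finset.card_eq_zero.1 (hN ▸ h0)
      rw [this]
      simp
    · have hNp : (0 : ℝ) < N := by exact_mod_cast h0
      have hs : 0 < Real.sqrt N := Real.sqrt_pos.2 hNp
      have h3 : ∀ n ∈ E.filter (fun n => ¬ n < N), 1 / Real.sqrt ((n : ℝ) + 1) ≤
          1 / Real.sqrt N := by
        intro n hn
        have := (Finset.mem_filter.1 hn).2
        have h4 : (N : ℝ) ≤ n := by exact_mod_cast not_lt.1 this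
        gcongr
        linarith
      refine (Finset.sum_le_card_nsmul _ _ _ h3).trans ?_
      rw [nsmul_eq_mul, mul_one_div, div_le_iff₀ hs, ← sq, Real.sq_sqrt hNp.le]
      have : (E.filter (fun n => ¬ n < N)).card ≤ N := Finset.card_filter_le _ _
      exact_mod_cast this
  linarith

variable {𝕜 : Type} [RCLike 𝕜] {H : Type} [NormedAddCommGroup H] [NormedSpace 𝕜 H]
variable (S : Sys 𝕜 H)

/-- Pairing with a finitely supported family. -/
def gev (g : ℕ →₀ 𝕜) (h : H) : 𝕜 := ∑ n ∈ g.support, g n * S.a n h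

lemma gev_eq (g : ℕ →₀ 𝕜) (h : H) (s : Finset ℕ) (hs : g.support ⊆ s) :
    ∑ n ∈ s, g n * S.a n h = gev S g h := by
  rw [gev]
  symm
  apply Finset.sum_subset hs
  intro n _ hn
  rw [Finsupp.notMem_support_iff.1 hn, zero_mul]

/-- The admissible families. -/
def GG : Set (ℕ →₀ 𝕜) := {g | ∀ h, ‖gev S g h‖ ≤ 1 / 160 * ‖h‖}

lemma a_sum (s : Finset ℕ) (c : ℕ → 𝕜) (m : ℕ) :
    S.a m (∑ n ∈ s, c n • S.e n) = if m ∈ s then c m else 0 := by
  rw [map_sum]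
  have : ∀ n ∈ s, S.a m (c n • S.e n) = if m = n then c n else 0 := by
    intro n _
    rw [map_smul, S.biorth, smul_eq_mul, mul_ite, mul_one, mul_zero]
  rw [Finset.sum_congr rfl this, Finset.sum_ite_eq]

lemma gev_sum (g : ℕ →₀ 𝕜) (s : Finset ℕ) (c : ℕ → 𝕜) :
    gev S g (∑ n ∈ s, c n • S.e n) = ∑ n ∈ s, g n * c n := by
  rw [gev]
  simp only [a_sum, mul_ite, mul_zero]
  rw [Finset.sum_ite_mem]
  apply Finset.sum_subset Finset.inter_subset_right
  intro n hn hn'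
  have : n ∉ g.support := fun h => hn' (Finset.mem_inter.2 ⟨h, hn⟩)
  rw [Finsupp.notMem_support_iff.1 this, zero_mul]

lemma test {g : ℕ →₀ 𝕜} (hg : g ∈ GG S) (s : Finset ℕ) (c : ℕ → 𝕜) :
    ‖∑ n ∈ s, g n * c n‖ ≤ 1 / 160 *
      (Real.sqrt (∑ n ∈ s, ‖c n‖ ^ 2) + 6 * ∑ n ∈ s, ‖c n‖ / Real.sqrt (n + 1)) := by
  rw [← gev_sum S]
  refine (hg _).trans ?_
  gcongr
  exact S.up s c

lemma sgn_exists (z : 𝕜) : ∃ c : 𝕜, ‖c‖ ≤ 1 ∧ z * c = (‖z‖ : 𝕜) := by
  by_cases hz : z = 0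
  · exact ⟨0, by simp, by simp [hz]⟩
  · have hz' : (‖z‖ : 𝕜) ≠ 0 := by simpa using hz
    refine ⟨(starRingEnd 𝕜) z / (‖z‖ : 𝕜), ?_, ?_⟩
    · rw [norm_div, RCLike.norm_conj, RCLike.norm_ofReal, abs_of_nonneg (norm_nonneg _)]
      exact div_self_le_one _
    · rw [mul_div_assoc', RCLike.mul_conj, sq, mul_div_assoc, div_self hz', mul_one]

lemma sum_norm_le {g : ℕ →₀ 𝕜} (hg : g ∈ GG S) (s : Finset ℕ) :
    ∑ n ∈ s, ‖g n‖ ≤ 1 / 8 * Real.sqrt s.card := by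
  choose c hc1 hc2 using fun n => sgn_exists (g n)
  have h := test S hg s c
  have h1 : ∑ n ∈ s, g n * c n = ((∑ n ∈ s, ‖g n‖ : ℝ) : 𝕜) := by
    rw [RCLike.ofReal_sum]
    exact Finset.sum_congr rfl fun n _ => hc2 n
  rw [h1, RCLike.norm_ofReal, abs_of_nonneg (Finset.sum_nonneg fun n _ => norm_nonneg _)] at h
  have h2 : Real.sqrt (∑ n ∈ s, ‖c n‖ ^ 2) ≤ Real.sqrt s.card := by
    apply Real.sqrt_le_sqrt
    have : ∑ n ∈ s, ‖c n‖ ^ 2 ≤ ∑ n ∈ s, (1 : ℝ) := by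
      apply Finset.sum_le_sum
      intro n _
      have := hc1 n
      have := norm_nonneg (c n)
      nlinarith
    simpa using this
  have h3 : ∑ n ∈ s, ‖c n‖ / Real.sqrt (n + 1) ≤ 3 * Real.sqrt s.card := by
    refine le_trans (Finset.sum_le_sum fun n _ => ?_) (sum_inv_sqrt s)
    gcongr
    exact hc1 n
  have h4 := Real.sqrt_nonneg (s.card : ℝ)
  linarith

lemma norm_g_le {g : ℕ →₀ 𝕜} (hg : g ∈ GG S) (n : ℕ) : ‖g n‖ ≤ 1 / 8 := by
  have := sum_norm_le S hg {n}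
  simpa using this

lemma count_le {g : ℕ →₀ 𝕜} (hg : g ∈ GG S) (s : Finset ℕ) (ρ : ℝ) (hρ : 0 < ρ)
    (hs : ∀ n ∈ s, ρ ≤ ‖g n‖) : ρ * Real.sqrt s.card ≤ 1 / 8 := by
  have h1 : (s.card : ℝ) * ρ ≤ ∑ n ∈ s, ‖g n‖ := by
    have := Finset.card_nsmul_le_sum s (fun n => ‖g n‖) ρ hs
    rwa [nsmul_eq_mul] at this
  have h2 := sum_norm_le S hg s
  rcases Nat.eq_zero_or_pos s.card with h0 | h0
  · rw [h0]; simp
  · have h3 : (0 : ℝ) < s.card := by exact_mod_cast h0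
    have h4 : 0 < Real.sqrt s.card := Real.sqrt_pos.2 h3
    have h5 : Real.sqrt s.card ^ 2 = s.card := Real.sq_sqrt h3.le
    have h6 : (ρ * Real.sqrt s.card) * Real.sqrt s.card ≤ 1 / 8 * Real.sqrt s.card := by
      calc (ρ * Real.sqrt s.card) * Real.sqrt s.card = s.card * ρ := by
            rw [mul_assoc, ← sq, h5, mul_comm]
        _ ≤ _ := h1.trans h2
    exact le_of_mul_le_mul_right h6 h4

lemma l2_sqrt (s : Finset ℕ) (h : H) : Real.sqrt (∑ n ∈ s, ‖S.a n h‖ ^ 2) ≤ ‖h‖ := by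
  rw [Real.sqrt_le_left (norm_nonneg _)]
  exact S.l2 s h

/-- Cauchy-Schwarz for families bounded by a constant. -/
lemma cs_const (s : Finset ℕ) (w : ℕ → 𝕜) (ρ : ℝ) (hρ : 0 ≤ ρ) (hw : ∀ n ∈ s, ‖w n‖ ≤ ρ) (h : H) :
    ‖∑ n ∈ s, w n * S.a n h‖ ≤ ρ * Real.sqrt s.card * ‖h‖ := by
  have h1 : ‖∑ n ∈ s, w n * S.a n h‖ ≤ ∑ n ∈ s, ρ * ‖S.a n h‖ := by
    refine (norm_sum_le _ _).trans (Finset.sum_le_sum fun n hn => ?_)
    rw [norm_mul]
    gcongr
    exact hw n hn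
  have h2 := Real.sum_mul_le_sqrt_mul_sqrt s (fun _ => ρ) (fun n => ‖S.a n h‖)
  have h3 : Real.sqrt (∑ n ∈ s, ρ ^ 2) = ρ * Real.sqrt s.card := by
    rw [Finset.sum_const, nsmul_eq_mul, mul_comm, Real.sqrt_mul (by positivity),
      Real.sqrt_sq hρ]
  rw [h3] at h2
  refine (h1.trans h2).trans ?_
  gcongr
  exact l2_sqrt S s h

/-- The second moment of a tail. -/
lemma tail_sq {g : ℕ →₀ 𝕜} (hg : g ∈ GG S) (s : Finset ℕ) (ρ : ℝ) (hρ : 0 < ρ)
    (hs : ∀ n ∈ s, ρ ≤ ‖g n‖) (hM : ∀ n ∈ s, 1 / Real.sqrt ((n : ℝ) + 1) ≤ ρ) :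
    ∑ n ∈ s, ‖g n‖ ^ 2 ≤ 1 := by
  by_contra hcon
  push Not at hcon
  set Q := ∑ n ∈ s, ‖g n‖ ^ 2 with hQ
  have h := test S hg s (fun n => (starRingEnd 𝕜) (g n))
  have h1 : ∑ n ∈ s, g n * (starRingEnd 𝕜) (g n) = ((Q : ℝ) : 𝕜) := by
    rw [hQ, RCLike.ofReal_sum]
    apply Finset.sum_congr rfl
    intro n _
    rw [RCLike.mul_conj]
    push_cast
    rfl
  rw [h1, RCLike.norm_ofReal, abs_of_pos (by linarith)] at h
  simp only [RCLike.norm_conj] at h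
  rw [← hQ] at h
  have h2 : ∑ n ∈ s, ‖g n‖ / Real.sqrt (n + 1) ≤ 1 / 64 := by
    calc ∑ n ∈ s, ‖g n‖ / Real.sqrt (n + 1) ≤ ∑ n ∈ s, ρ * ‖g n‖ := by
          apply Finset.sum_le_sum
          intro n hn
          rw [div_eq_mul_one_div, mul_comm]
          gcongr
          exact hM n hn
      _ = ρ * ∑ n ∈ s, ‖g n‖ := by rw [Finset.mul_sum]
      _ ≤ ρ * (1 / 8 * Real.sqrt s.card) := by
          gcongr
          exact sum_norm_le S hg s
      _ = 1 / 8 * (ρ * Real.sqrt s.card) := by ring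
      _ ≤ 1 / 8 * (1 / 8) := by
          gcongr
          exact count_le S hg s ρ hρ hs
      _ = 1 / 64 := by norm_num
  have h3 : Real.sqrt Q ≤ Q := by
    rw [Real.sqrt_le_left (by linarith)]
    nlinarith
  linarith

/-- The greedy part of an admissible family is bounded. -/
lemma greedy_part {g : ℕ →₀ 𝕜} (hg : g ∈ GG S) (ρ : ℝ) (hρ : 0 < ρ) (h : H) :
    ‖∑ n ∈ g.support.filter (fun n => ρ < ‖g n‖), g n * S.a n h‖ ≤ 3 * ‖h‖ := by
  by_cases hρ1 : 1 ≤ ρ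
  · have : g.support.filter (fun n => ρ < ‖g n‖) = ∅ := by
      apply Finset.filter_eq_empty_iff.2
      intro n _
      have := norm_g_le S hg n
      linarith
    rw [this, Finset.sum_empty, norm_zero]
    positivity
  push Not at hρ1
  set M : ℕ := ⌈1 / ρ ^ 2⌉₊ with hMdef
  have hM1 : 1 / ρ ^ 2 ≤ M := Nat.le_ceil _
  have hM2 : (M : ℝ) < 1 / ρ ^ 2 + 1 := Nat.ceil_lt_add_one (by positivity)
  have hρ2 : 0 < ρ ^ 2 := by positivity
  have hρM : ρ ^ 2 * M ≤ 2 := by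
    have : ρ ^ 2 * M ≤ ρ ^ 2 * (1 / ρ ^ 2 + 1) := by gcongr
    have h2 : ρ ^ 2 * (1 / ρ ^ 2 + 1) = 1 + ρ ^ 2 := by field_simp
    nlinarith
  -- the head
  have hA : ‖∑ n ∈ Finset.range M, g n * S.a n h‖ ≤ 1 / 40 * ‖h‖ := by
    rw [← gev_sum S g (Finset.range M) (fun n => S.a n h)]
    refine (hg _).trans ?_
    have := S.proj M h
    linarith
  -- small part of the head
  have hB : ‖∑ n ∈ (Finset.range M).filter (fun n => ¬ ρ < ‖g n‖), g n * S.a n h‖ ≤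
      3 / 2 * ‖h‖ := by
    refine (cs_const S _ (fun n => g n) ρ hρ.le
      (fun n hn => not_lt.1 (Finset.mem_filter.1 hn).2) h).trans ?_
    gcongr
    have h1 : Real.sqrt ((Finset.range M).filter (fun n => ¬ ρ < ‖g n‖)).card ≤ Real.sqrt M := by
      apply Real.sqrt_le_sqrt
      have := Finset.card_filter_le (Finset.range M) (fun n => ¬ ρ < ‖g n‖)
      rw [Finset.card_range] at this
      exact_mod_cast this
    have h2 : ρ * Real.sqrt M ≤ 3 / 2 := by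
      rw [← pow_le_pow_iff_left₀ (by positivity) (by norm_num) two_ne_zero, mul_pow,
        Real.sq_sqrt (by positivity)]
      linarith
    exact (mul_le_mul_of_nonneg_left h1 hρ.le).trans h2
  -- the tail
  have hC : ‖∑ n ∈ (g.support.filter (fun n => ρ < ‖g n‖)).filter (fun n => ¬ n < M),
      g n * S.a n h‖ ≤ 1 * ‖h‖ := by
    have h1 : ‖∑ n ∈ (g.support.filter (fun n => ρ < ‖g n‖)).filter (fun n => ¬ n < M),
        g n * S.a n h‖ ≤ ∑ n ∈ (g.support.filter (fun n => ρ < ‖g n‖)).filter (fun n => ¬ n < M),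
        ‖g n‖ * ‖S.a n h‖ := by
      refine (norm_sum_le _ _).trans (le_of_eq (Finset.sum_congr rfl fun n _ => norm_mul _ _))
    refine h1.trans ((Real.sum_mul_le_sqrt_mul_sqrt _ _ _).trans ?_)
    gcongr
    · rw [Real.sqrt_le_one]
      apply tail_sq S hg _ ρ hρ
      · intro n hn
        exact (Finset.mem_filter.1 (Finset.mem_filter.1 hn).1).2.le
      · intro n hn
        have hn' : (M : ℝ) ≤ n := by exact_mod_cast not_lt.1 (Finset.mem_filter.1 hn).2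
        rw [div_le_iff₀ (Real.sqrt_pos.2 (by positivity)), ← div_le_iff₀' hρ]
        apply Real.le_sqrt_of_sq_le
        rw [div_pow, one_pow]
        linarith
    · exact l2_sqrt S _ h
  -- combine
  have hsplit : ∑ n ∈ g.support.filter (fun n => ρ < ‖g n‖), g n * S.a n h =
      ∑ n ∈ Finset.range M, g n * S.a n h -
      ∑ n ∈ (Finset.range M).filter (fun n => ¬ ρ < ‖g n‖), g n * S.a n h +
      ∑ n ∈ (g.support.filter (fun n => ρ < ‖g n‖)).filter (fun n => ¬ n < M),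
        g n * S.a n h := by
    rw [← Finset.sum_filter_add_sum_filter_not (Finset.range M) (fun n => ρ < ‖g n‖),
      ← Finset.sum_filter_add_sum_filter_not (g.support.filter (fun n => ρ < ‖g n‖))
        (fun n => n < M)]
    have : (g.support.filter (fun n => ρ < ‖g n‖)).filter (fun n => n < M) =
        (Finset.range M).filter (fun n => ρ < ‖g n‖) := by
      ext n
      simp only [Finset.mem_filter, Finset.mem_range]
      constructor
      · rintro ⟨⟨_, h2⟩, h3⟩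
        exact ⟨h3, h2⟩
      · rintro ⟨h3, h2⟩
        refine ⟨⟨?_, h2⟩, h3⟩
        rw [Finsupp.mem_support_iff]
        intro h0
        rw [h0, norm_zero] at h2
        linarith
    rw [this]
    ring
  rw [hsplit]
  refine (norm_add_le _ _).trans ?_
  have := norm_sub_le (∑ n ∈ Finset.range M, g n * S.a n h)
    (∑ n ∈ (Finset.range M).filter (fun n => ¬ ρ < ‖g n‖), g n * S.a n h)
  have h0 := norm_nonneg h
  linarith

/-- Truncation. -/
def TT (ρ : ℝ) (z : 𝕜) : 𝕜 := if ‖z‖ ≤ ρ then z else ((ρ / ‖z‖ : ℝ) : 𝕜) * z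

lemma TT_zero (ρ : ℝ) : TT ρ (0 : 𝕜) = 0 := by
  rw [TT]; split_ifs <;> simp

lemma TT_of_le {ρ : ℝ} {z : 𝕜} (h : ‖z‖ ≤ ρ) : TT ρ z = z := if_pos h

lemma TT_norm_le {ρ : ℝ} (hρ : 0 ≤ ρ) (z : 𝕜) : ‖TT ρ z‖ ≤ ρ := by
  rw [TT]
  split_ifs with h
  · exact h
  · have hz : 0 < ‖z‖ := lt_of_le_of_lt hρ (not_le.1 h)
    rw [norm_mul, RCLike.norm_ofReal, abs_of_nonneg (by positivity), div_mul_cancel₀ _ hz.ne']

lemma TT_diff_zero {σ ρ : ℝ} (hσρ : σ ≤ ρ) {z : 𝕜} (h : ‖z‖ ≤ σ) : TT ρ z - TT σ z = 0 := by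
  rw [TT_of_le h, TT_of_le (h.trans hσρ), sub_self]

lemma TT_diff {σ ρ : ℝ} (hσ : 0 ≤ σ) (hσρ : σ ≤ ρ) (z : 𝕜) : ‖TT ρ z - TT σ z‖ ≤ ρ - σ := by
  by_cases h : ‖z‖ ≤ σ
  · rw [TT_diff_zero hσρ h, norm_zero]
    linarith
  · have hz : 0 < ‖z‖ := lt_of_le_of_lt hσ (not_le.1 h)
    have h1 : TT σ z = ((σ / ‖z‖ : ℝ) : 𝕜) * z := if_neg h
    by_cases h2 : ‖z‖ ≤ ρ
    · rw [TT_of_le h2, h1]
      have h3 : z - ((σ / ‖z‖ : ℝ) : 𝕜) * z = ((1 - σ / ‖z‖ : ℝ) : 𝕜) * z := by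
        push_cast; ring
      have h4 : σ / ‖z‖ ≤ 1 := by
        rw [div_le_one hz]; exact (not_le.1 h).le
      rw [h3, norm_mul, RCLike.norm_ofReal, abs_of_nonneg (by linarith), sub_mul, one_mul,
        div_mul_cancel₀ _ hz.ne']
      linarith
    · have h3 : TT ρ z = ((ρ / ‖z‖ : ℝ) : 𝕜) * z := if_neg h2
      rw [h1, h3, ← sub_mul, ← RCLike.ofReal_sub, norm_mul, RCLike.norm_ofReal, ← sub_div,
        abs_of_nonneg (div_nonneg (by linarith) hz.le), div_mul_cancel₀ _ hz.ne']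

lemma trunc_bound {g : ℕ →₀ 𝕜} (hg : g ∈ GG S) (ρ : ℝ) (hρ : 0 < ρ) (h : H) :
    ‖∑ n ∈ g.support, TT ρ (g n) * S.a n h‖ ≤ 4 * ‖h‖ := by
  have h1 := greedy_part S hg ρ hρ h
  have h2 := hg h
  have h3 : ‖∑ n ∈ g.support.filter (fun n => ρ < ‖g n‖), TT ρ (g n) * S.a n h‖ ≤
      1 / 8 * ‖h‖ := by
    refine (cs_const S _ (fun n => TT ρ (g n)) ρ hρ.le (fun n _ => TT_norm_le hρ.le _) h).trans ?_
    gcongr
    exact count_le S hg _ ρ hρ (fun n hn => (Finset.mem_filter.1 hn).2.le)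
  have h4 : ∑ n ∈ g.support, TT ρ (g n) * S.a n h = gev S g h -
      ∑ n ∈ g.support.filter (fun n => ρ < ‖g n‖), g n * S.a n h +
      ∑ n ∈ g.support.filter (fun n => ρ < ‖g n‖), TT ρ (g n) * S.a n h := by
    rw [gev, ← Finset.sum_filter_add_sum_filter_not g.support (fun n => ρ < ‖g n‖),
      ← Finset.sum_filter_add_sum_filter_not g.support (fun n => ρ < ‖g n‖)
        (fun n => g n * S.a n h)]
    have : ∑ n ∈ g.support with ¬ ρ < ‖g n‖, TT ρ (g n) * S.a n h =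
        ∑ n ∈ g.support with ¬ ρ < ‖g n‖, g n * S.a n h := by
      apply Finset.sum_congr rfl
      intro n hn
      rw [TT_of_le (not_lt.1 (Finset.mem_filter.1 hn).2)]
    rw [this]
    ring
  rw [h4]
  have h5 := norm_add_le (gev S g h -
      ∑ n ∈ g.support.filter (fun n => ρ < ‖g n‖), g n * S.a n h)
      (∑ n ∈ g.support.filter (fun n => ρ < ‖g n‖), TT ρ (g n) * S.a n h)
  have h6 := norm_sub_le (gev S g h)
      (∑ n ∈ g.support.filter (fun n => ρ < ‖g n‖), g n * S.a n h)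
  have h0 := norm_nonneg h
  linarith

/-- The weights. -/
def lam (m : ℕ) : ℝ := 1 / Real.sqrt (max m 1 : ℕ)

lemma lam_pos (m : ℕ) : 0 < lam m := by
  have : (0 : ℝ) < ((max m 1 : ℕ) : ℝ) := by
    have : 0 < max m 1 := by simp
    exact_mod_cast this
  have := Real.sqrt_pos.2 this
  rw [lam]
  positivity

lemma lam_sqrt_le (m : ℕ) : lam m * Real.sqrt m ≤ 1 := by
  have h : (0 : ℝ) < ((max m 1 : ℕ) : ℝ) := by
    have : 0 < max m 1 := by simp
    exact_mod_cast this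
  rw [lam, one_div_mul_eq_div, div_le_one (Real.sqrt_pos.2 h)]
  apply Real.sqrt_le_sqrt
  exact_mod_cast le_max_left m 1

lemma lam_succ (m : ℕ) : lam (m + 1) = 1 / Real.sqrt ((m : ℝ) + 1) := by
  rw [lam]
  have : max (m + 1) 1 = m + 1 := by simp
  rw [this]
  push_cast
  rfl

lemma lam_anti (m : ℕ) : lam (m + 1) ≤ lam m := by
  rw [lam_succ, lam]
  have h : (0 : ℝ) < ((max m 1 : ℕ) : ℝ) := by
    have : 0 < max m 1 := by simp
    exact_mod_cast this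
  have h1 := Real.sqrt_pos.2 h
  gcongr
  have : max m 1 ≤ m + 1 := by omega
  exact_mod_cast this

lemma lam_key (m : ℕ) : (lam m - lam (m + 1)) * m + (lam m - lam (m + 1)) * (m + 1) / 8 +
    lam m / 8 ≤ lam (m + 1) := by
  rcases Nat.eq_zero_or_pos m with h0 | h0
  · subst h0
    have h1 : lam 0 = 1 := by simp [lam]
    have h2 : lam (0 + 1) = 1 := by simp [lam]
    rw [h1, h2]
    norm_num
  · have hm : (1 : ℝ) ≤ m := by exact_mod_cast h0
    have hmax : max m 1 = m := by omega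
    rw [lam_succ, lam, hmax]
    have hs : 0 < Real.sqrt m := Real.sqrt_pos.2 (by linarith)
    have hs' : 0 < Real.sqrt ((m : ℝ) + 1) := Real.sqrt_pos.2 (by linarith)
    have e1 : Real.sqrt m ^ 2 = m := Real.sq_sqrt (by linarith)
    have e2 : Real.sqrt ((m : ℝ) + 1) ^ 2 = m + 1 := Real.sq_sqrt (by linarith)
    generalize Real.sqrt (m : ℝ) = s at *
    generalize Real.sqrt ((m : ℝ) + 1) = s' at *
    have e3 : s' ^ 2 = s ^ 2 + 1 := by linarith
    have hs1 : 1 ≤ s := by nlinarith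
    have hss : s ≤ s' := by nlinarith
    have hss3 : s' ≤ 3 / 2 * s := by
      rw [← pow_le_pow_iff_left₀ hs'.le (by linarith) two_ne_zero]
      nlinarith
    -- multiply by s * s'
    have key : (1 / s - 1 / s') * s ^ 2 + (1 / s - 1 / s') * (s ^ 2 + 1) / 8 + 1 / s / 8 ≤
        1 / s' := by
      have h1 : (1 / s - 1 / s') * s ^ 2 + (1 / s - 1 / s') * (s ^ 2 + 1) / 8 + 1 / s / 8 - 1 / s' =
          ((s' - s) * s ^ 2 + (s' - s) * (s ^ 2 + 1) / 8 + s' / 8 - s) / (s * s') := by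
        field_simp
      have h2 : ((s' - s) * s ^ 2 + (s' - s) * (s ^ 2 + 1) / 8 + s' / 8 - s) / (s * s') ≤ 0 := by
        apply div_nonpos_of_nonpos_of_nonneg _ (by positivity)
        have h3 : (s' - s) * (s' + s) = 1 := by nlinarith
        have h4 : s' - s ≤ 1 / (2 * s) := by
          rw [le_div_iff₀ (by positivity)]
          nlinarith
        have h5 : (s' - s) * (2 * s) ≤ 1 := by
          rwa [le_div_iff₀ (by positivity)] at h4
        nlinarith [mul_le_mul_of_nonneg_right h5 hs.le, mul_nonneg (sub_nonneg.2 hss) hs.le]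
      linarith
    rw [← e1]
    have e4 : (s ^ 2 : ℝ) + 1 = s ^ 2 + 1 := rfl
    exact key

end

end Pool.Agent.H96cond
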