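import Mathlib
import Pool.Agent.H96cond.Norm

open Filter Topology

namespace Pool.Agent.H96cond

noncomputable section

variable {𝕜 : Type} [RCLike 𝕜] {H : Type} [NormedAddCommGroup H] [NormedSpace 𝕜 H]
variable (S : Sys 𝕜 H)

/-- The basic seminorms. -/
def Psi (B : Finset ℕ) (g : ℕ →₀ 𝕜) (x : H) : ℝ :=
  lam B.card * ∑ n ∈ B, ‖S.a n x‖ + ‖∑ n ∈ g.support \ B, TT (lam B.card / 8) (g n) * S.a n x‖

lemma Psi_nonneg (B : Finset ℕ) (g : ℕ →₀ 𝕜) (x : H) : 0 ≤ Psi S B g x := by
  have := lam_pos B.card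
  rw [Psi]
  positivity

lemma Psi_add (B : Finset ℕ) (g : ℕ →₀ 𝕜) (x y : H) :
    Psi S B g (x + y) ≤ Psi S B g x + Psi S B g y := by
  have hl := lam_pos B.card
  have h1 : ∑ n ∈ B, ‖S.a n (x + y)‖ ≤ ∑ n ∈ B, ‖S.a n x‖ + ∑ n ∈ B, ‖S.a n y‖ := by
    rw [← Finset.sum_add_distrib]
    apply Finset.sum_le_sum
    intro n _
    rw [map_add]
    exact norm_add_le _ _
  have h2 : ‖∑ n ∈ g.support \ B, TT (lam B.card / 8) (g n) * S.a n (x + y)‖ ≤
      ‖∑ n ∈ g.support \ B, TT (lam B.card / 8) (g n) * S.a n x‖ +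
      ‖∑ n ∈ g.support \ B, TT (lam B.card / 8) (g n) * S.a n y‖ := by
    have : ∑ n ∈ g.support \ B, TT (lam B.card / 8) (g n) * S.a n (x + y) =
        ∑ n ∈ g.support \ B, TT (lam B.card / 8) (g n) * S.a n x +
        ∑ n ∈ g.support \ B, TT (lam B.card / 8) (g n) * S.a n y := by
      rw [← Finset.sum_add_distrib]
      apply Finset.sum_congr rfl
      intro n _
      rw [map_add, mul_add]
    rw [this]
    exact norm_add_le _ _
  rw [Psi, Psi, Psi]
  have h3 := mul_le_mul_of_nonneg_left h1 hl.le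
  linarith

lemma Psi_smul (B : Finset ℕ) (g : ℕ →₀ 𝕜) (c : 𝕜) (x : H) :
    Psi S B g (c • x) = ‖c‖ * Psi S B g x := by
  rw [Psi, Psi]
  have h1 : ∑ n ∈ B, ‖S.a n (c • x)‖ = ‖c‖ * ∑ n ∈ B, ‖S.a n x‖ := by
    rw [Finset.mul_sum]
    apply Finset.sum_congr rfl
    intro n _
    rw [map_smul, smul_eq_mul, norm_mul]
  have h2 : ∑ n ∈ g.support \ B, TT (lam B.card / 8) (g n) * S.a n (c • x) =
      c * ∑ n ∈ g.support \ B, TT (lam B.card / 8) (g n) * S.a n x := by
    rw [Finset.mul_sum]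
    apply Finset.sum_congr rfl
    intro n _
    rw [map_smul, smul_eq_mul]
    ring
  rw [h1, h2, norm_mul]
  ring

lemma Psi_le {g : ℕ →₀ 𝕜} (hg : g ∈ GG S) (B : Finset ℕ) (x : H) : Psi S B g x ≤ 6 * ‖x‖ := by
  have hl := lam_pos B.card
  have h0 := norm_nonneg x
  have h1 : lam B.card * ∑ n ∈ B, ‖S.a n x‖ ≤ ‖x‖ := by
    have h2 := Real.sum_mul_le_sqrt_mul_sqrt B (fun _ => (1 : ℝ)) (fun n => ‖S.a n x‖)
    simp only [one_mul, one_pow, Finset.sum_const, nsmul_eq_mul, mul_one] at h2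
    calc lam B.card * ∑ n ∈ B, ‖S.a n x‖ ≤ lam B.card * (Real.sqrt B.card * ‖x‖) := by
          gcongr
          refine h2.trans ?_
          gcongr
          exact l2_sqrt S B x
      _ = (lam B.card * Real.sqrt B.card) * ‖x‖ := by ring
      _ ≤ 1 * ‖x‖ := by
          gcongr
          exact lam_sqrt_le _
      _ = ‖x‖ := one_mul _
  have h2 := trunc_bound S hg (lam B.card / 8) (by positivity) x
  have h3 : ‖∑ n ∈ g.support ∩ B, TT (lam B.card / 8) (g n) * S.a n x‖ ≤ 1 * ‖x‖ := by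
    refine (cs_const S _ (fun n => TT (lam B.card / 8) (g n)) (lam B.card / 8) (by positivity)
      (fun n _ => TT_norm_le (by positivity) _) x).trans ?_
    gcongr
    have h4 : Real.sqrt (g.support ∩ B).card ≤ Real.sqrt B.card := by
      apply Real.sqrt_le_sqrt
      exact_mod_cast Finset.card_le_card Finset.inter_subset_right
    have h5 := lam_sqrt_le B.card
    have h6 : lam B.card / 8 * Real.sqrt (g.support ∩ B).card ≤
        lam B.card / 8 * Real.sqrt B.card := by gcongr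
    linarith
  have h4 : ∑ n ∈ g.support \ B, TT (lam B.card / 8) (g n) * S.a n x =
      ∑ n ∈ g.support, TT (lam B.card / 8) (g n) * S.a n x -
      ∑ n ∈ g.support ∩ B, TT (lam B.card / 8) (g n) * S.a n x := by
    rw [eq_sub_iff_add_eq, ← Finset.sum_union]
    · congr 1
      exact Finset.sdiff_union_inter _ _
    · exact Finset.disjoint_sdiff_inter _ _
  rw [Psi, h4]
  have h5 := norm_sub_le (∑ n ∈ g.support, TT (lam B.card / 8) (g n) * S.a n x)
      (∑ n ∈ g.support ∩ B, TT (lam B.card / 8) (g n) * S.a n x)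
  linarith

/-- Adding an index of largest modulus does not decrease the seminorm. -/
lemma Psi_insert {g : ℕ →₀ 𝕜} (hg : g ∈ GG S) (B : Finset ℕ) (x : H) (n0 : ℕ) (hn0 : n0 ∉ B)
    (htop : ∀ m, ‖S.a m x‖ ≤ ‖S.a n0 x‖) : Psi S B g x ≤ Psi S (insert n0 B) g x := by
  set t := ‖S.a n0 x‖ with ht
  have ht0 : 0 ≤ t := norm_nonneg _
  rw [Psi, Psi, Finset.card_insert_of_notMem hn0, Finset.sum_insert hn0]
  set m := B.card with hm
  have hl := lam_pos m
  have hl' := lam_pos (m + 1)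
  have hanti := lam_anti m
  set ρ := lam m / 8 with hρ
  set ρ' := lam (m + 1) / 8 with hρ'
  have hρpos : 0 < ρ := by positivity
  have hρ'pos : 0 < ρ' := by positivity
  have hρρ : ρ' ≤ ρ := by rw [hρ, hρ']; linarith
  have hS : ∑ n ∈ B, ‖S.a n x‖ ≤ m * t := by
    have := Finset.sum_le_card_nsmul B (fun n => ‖S.a n x‖) t (fun n _ => htop n)
    rwa [nsmul_eq_mul] at this
  have hS0 : 0 ≤ ∑ n ∈ B, ‖S.a n x‖ := Finset.sum_nonneg fun n _ => norm_nonneg _
  -- splitting off n0
  have h1 : ‖∑ n ∈ g.support \ B, TT ρ (g n) * S.a n x‖ ≤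
      ‖∑ n ∈ g.support \ insert n0 B, TT ρ (g n) * S.a n x‖ + ρ * t := by
    by_cases hmem : n0 ∈ g.support
    · have hsd : g.support \ B = insert n0 (g.support \ insert n0 B) := by
        ext n
        simp only [Finset.mem_sdiff, Finset.mem_insert, not_or]
        constructor
        · rintro ⟨h1, h2⟩
          by_cases h3 : n = n0
          · exact Or.inl h3
          · exact Or.inr ⟨h1, h3, h2⟩
        · rintro (h | ⟨h1, _, h3⟩)
          · subst h
            exact ⟨hmem, hn0⟩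
          · exact ⟨h1, h3⟩
      rw [hsd, Finset.sum_insert (by simp)]
      refine (norm_add_le _ _).trans ?_
      rw [add_comm, norm_mul]
      gcongr
      exact TT_norm_le hρpos.le _
    · have hsd : g.support \ B = g.support \ insert n0 B := by
        ext n
        simp only [Finset.mem_sdiff, Finset.mem_insert, not_or]
        constructor
        · rintro ⟨h1, h2⟩
          exact ⟨h1, fun h3 => hmem (h3 ▸ h1), h2⟩
        · rintro ⟨h1, _, h3⟩
          exact ⟨h1, h3⟩
      rw [hsd]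
      have : 0 ≤ ρ * t := by positivity
      linarith
  -- changing the truncation
  have h2 : ‖∑ n ∈ g.support \ insert n0 B, TT ρ (g n) * S.a n x‖ ≤
      ‖∑ n ∈ g.support \ insert n0 B, TT ρ' (g n) * S.a n x‖ + (ρ - ρ') * t * (m + 1) := by
    have e1 : ∑ n ∈ g.support \ insert n0 B, TT ρ (g n) * S.a n x =
        ∑ n ∈ g.support \ insert n0 B, TT ρ' (g n) * S.a n x +
        ∑ n ∈ g.support \ insert n0 B, (TT ρ (g n) - TT ρ' (g n)) * S.a n x := by
      rw [← Finset.sum_add_distrib]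
      apply Finset.sum_congr rfl
      intro n _
      ring
    rw [e1]
    refine (norm_add_le _ _).trans ?_
    gcongr
    have e2 : ∑ n ∈ g.support \ insert n0 B, (TT ρ (g n) - TT ρ' (g n)) * S.a n x =
        ∑ n ∈ (g.support \ insert n0 B).filter (fun n => ρ' < ‖g n‖),
          (TT ρ (g n) - TT ρ' (g n)) * S.a n x := by
      rw [Finset.sum_filter]
      apply Finset.sum_congr rfl
      intro n _
      split_ifs with h
      · rfl
      · rw [TT_diff_zero hρρ (not_lt.1 h), zero_mul]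
    rw [e2]
    set G := (g.support \ insert n0 B).filter (fun n => ρ' < ‖g n‖) with hG
    have e3 : ‖∑ n ∈ G, (TT ρ (g n) - TT ρ' (g n)) * S.a n x‖ ≤ G.card * ((ρ - ρ') * t) := by
      refine (norm_sum_le _ _).trans ?_
      have := Finset.sum_le_card_nsmul G (fun n => ‖(TT ρ (g n) - TT ρ' (g n)) * S.a n x‖)
        ((ρ - ρ') * t) (fun n _ => by
          rw [norm_mul]
          have hd := TT_diff hρ'pos.le hρρ (g n)
          have : 0 ≤ ρ - ρ' := by linarith
          gcongr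
          exact htop n)
      rwa [nsmul_eq_mul] at this
    have e4 : (G.card : ℝ) ≤ m + 1 := by
      have h5 := count_le S hg G ρ' hρ'pos (fun n hn => (Finset.mem_filter.1 hn).2.le)
      have hm1 : (0 : ℝ) < (m : ℝ) + 1 := by positivity
      have hs := Real.sqrt_pos.2 hm1
      have h6 : Real.sqrt G.card ≤ Real.sqrt ((m : ℝ) + 1) := by
        rw [hρ', lam_succ, div_div, one_div_mul_eq_div, div_le_iff₀ (by positivity)] at h5
        linarith
      rwa [Real.sqrt_le_sqrt_iff hm1.le] at h6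
    have h7 : 0 ≤ (ρ - ρ') * t := mul_nonneg (by linarith) ht0
    calc ‖∑ n ∈ G, (TT ρ (g n) - TT ρ' (g n)) * S.a n x‖ ≤ G.card * ((ρ - ρ') * t) := e3
      _ ≤ (m + 1) * ((ρ - ρ') * t) := by gcongr
      _ = (ρ - ρ') * t * (m + 1) := by ring
  have h3 := lam_key m
  have h4 := mul_le_mul_of_nonneg_right h3 ht0
  have h5 : (lam m - lam (m + 1)) * ∑ n ∈ B, ‖S.a n x‖ ≤ (lam m - lam (m + 1)) * (m * t) := by
    apply mul_le_mul_of_nonneg_left hS
    linarith
  rw [← ht]
  have h6 : (ρ - ρ') * t * (m + 1) = (lam m - lam (m + 1)) * (m + 1) / 8 * t := by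
    rw [hρ, hρ']; ring
  have h7 : ρ * t = lam m / 8 * t := by rw [hρ]
  rw [h6] at h2
  rw [h7] at h1
  nlinarith

lemma Psi_union {g : ℕ →₀ 𝕜} (hg : g ∈ GG S) (B A : Finset ℕ) (x : H)
    (htop : ∀ n ∈ A, ∀ m, ‖S.a m x‖ ≤ ‖S.a n x‖) : Psi S B g x ≤ Psi S (B ∪ A) g x := by
  induction A using Finset.induction_on with
  | empty => simp
  | insert n A hn ih =>
    have h1 := ih (fun k hk => htop k (Finset.mem_insert_of_mem hk))
    rw [Finset.union_insert]
    by_cases hmem : n ∈ B ∪ A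
    · rwa [Finset.insert_eq_of_mem hmem]
    · exact h1.trans (Psi_insert S hg _ x n hmem (htop n (Finset.mem_insert_self _ _)))

lemma zero_mem_GG : (0 : ℕ →₀ 𝕜) ∈ GG S := by
  intro h
  rw [gev]
  simp

instance : Nonempty (Finset ℕ × GG S) := ⟨(∅, ⟨0, zero_mem_GG S⟩)⟩

/-- The new norm. -/
def NN (x : H) : ℝ := ⨆ i : Finset ℕ × GG S, Psi S i.1 i.2 x

lemma NN_bdd (x : H) : BddAbove (Set.range fun i : Finset ℕ × GG S => Psi S i.1 i.2 x) := by
  refine ⟨6 * ‖x‖, ?_⟩
  rintro _ ⟨i, rfl⟩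
  exact Psi_le S i.2.2 _ _

lemma le_NN {g : ℕ →₀ 𝕜} (hg : g ∈ GG S) (B : Finset ℕ) (x : H) : Psi S B g x ≤ NN S x :=
  le_ciSup (NN_bdd S x) (B, ⟨g, hg⟩)

lemma NN_le (x : H) : NN S x ≤ 6 * ‖x‖ := ciSup_le fun i => Psi_le S i.2.2 _ _

lemma NN_nonneg (x : H) : 0 ≤ NN S x :=
  (Psi_nonneg S ∅ 0 x).trans (le_NN S (zero_mem_GG S) _ _)

lemma NN_add (x y : H) : NN S (x + y) ≤ NN S x + NN S y := by
  apply ciSup_le
  intro i
  refine (Psi_add S _ _ _ _).trans ?_
  exact add_le_add (le_NN S i.2.2 _ _) (le_NN S i.2.2 _ _)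

lemma NN_smul (c : 𝕜) (x : H) : NN S (c • x) = ‖c‖ * NN S x := by
  rw [NN, NN, Real.mul_iSup_of_nonneg (norm_nonneg c)]
  congr 1
  ext i
  exact Psi_smul S _ _ _ _

lemma NN_lower_K (x : H) (K : ℕ) :
    1 / 640 * ‖∑ n ∈ Finset.range K, S.a n x • S.e n‖ ≤ NN S x := by
  set y := ∑ n ∈ Finset.range K, S.a n x • S.e n with hy
  obtain ⟨f, hf1, hf2⟩ := exists_dual_vector'' 𝕜 y
  let g : ℕ →₀ 𝕜 := Finsupp.onFinset (Finset.range K)
    (fun n => if n < K then ((1 / 640 : ℝ) : 𝕜) * f (S.e n) else 0) (by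
      intro n hn
      rw [Finset.mem_range]
      by_contra h
      exact hn (if_neg h))
  have hgn : ∀ n ∈ Finset.range K, g n = ((1 / 640 : ℝ) : 𝕜) * f (S.e n) := by
    intro n hn
    exact if_pos (Finset.mem_range.1 hn)
  have hsup : g.support ⊆ Finset.range K := Finsupp.support_onFinset_subset
  have hgev : ∀ h : H, gev S g h =
      ((1 / 640 : ℝ) : 𝕜) * f (∑ n ∈ Finset.range K, S.a n h • S.e n) := by
    intro h
    rw [← gev_eq S g h _ hsup, map_sum, Finset.mul_sum]
    apply Finset.sum_congr rfl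
    intro n hn
    rw [hgn n hn, map_smul, smul_eq_mul]
    ring
  have hg : g ∈ GG S := by
    intro h
    rw [hgev, norm_mul, RCLike.norm_ofReal, abs_of_pos (by norm_num)]
    have h1 := f.le_opNorm (∑ n ∈ Finset.range K, S.a n h • S.e n)
    have h2 := S.proj K h
    have h3 : ‖f‖ * ‖∑ n ∈ Finset.range K, S.a n h • S.e n‖ ≤ 1 * (4 * ‖h‖) := by gcongr
    linarith
  have h1 := le_NN S hg ∅ x
  have h2 : Psi S ∅ g x = ‖gev S g x‖ := by
    rw [Psi, gev]
    simp only [Finset.card_empty, Finset.sum_empty, mul_zero, zero_add, Finset.sdiff_empty]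
    congr 1
    apply Finset.sum_congr rfl
    intro n _
    rw [TT_of_le]
    have hl0 : lam 0 = 1 := by simp [lam]
    rw [hl0]
    exact norm_g_le S hg n
  rw [h2, hgev, ← hy, hf2, norm_mul, RCLike.norm_ofReal, abs_of_pos (by norm_num),
    RCLike.norm_ofReal, abs_of_nonneg (norm_nonneg _)] at h1
  exact h1

lemma NN_lower (x : H) : 1 / 640 * ‖x‖ ≤ NN S x := by
  have h := (S.conv x).norm.const_mul (1 / 640)
  exact le_of_tendsto h (Eventually.of_forall fun K => NN_lower_K S x K)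

lemma top_finite (x : H) (n1 : ℕ) (h1 : S.a n1 x ≠ 0) :
    {n : ℕ | ∀ m, ‖S.a m x‖ ≤ ‖S.a n x‖}.Finite := by
  have hs : Summable (fun n => ‖S.a n x‖ ^ 2) :=
    summable_of_sum_le (fun n => by positivity) (fun s => S.l2 s x)
  have ht := hs.tendsto_cofinite_zero
  have hpos : 0 < ‖S.a n1 x‖ ^ 2 := by positivity
  have hev := ht.eventually (gt_mem_nhds hpos)
  rw [Filter.eventually_cofinite] at hev
  apply hev.subset
  intro n hn
  rw [Set.mem_setOf_eq] at hn ⊢
  rw [not_lt]
  gcongr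
  exact hn n1

theorem NN_le_of_rearr (x y : H) (π : Equiv.Perm ℕ) (h1 : ∀ n, ‖S.a (π n) y‖ = ‖S.a n x‖)
    (h2 : ∀ k, S.a k x ≠ 0 → (∃ n, ‖S.a k x‖ < ‖S.a n x‖) → π k = k ∧ S.a k y = S.a k x) :
    NN S x ≤ NN S y := by
  apply ciSup_le
  rintro ⟨B, g, hg⟩
  by_cases hz : ∀ n, S.a n x = 0
  · have : Psi S B g x = 0 := by
      rw [Psi]
      simp [hz]
    simp only
    rw [this]
    exact NN_nonneg S y
  push Not at hz
  obtain ⟨n1, hn1⟩ := hz
  have hfin := top_finite S x n1 hn1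
  set A := hfin.toFinset with hA
  have hAm : ∀ n, n ∈ A ↔ ∀ m, ‖S.a m x‖ ≤ ‖S.a n x‖ := by
    intro n
    rw [hA, Set.Finite.mem_toFinset, Set.mem_setOf_eq]
  refine (Psi_union S hg B A x (fun n hn => (hAm n).1 hn)).trans ?_
  set B' := B ∪ A with hB'
  refine le_trans (le_of_eq ?_) (le_NN S hg (B'.map π.toEmbedding) y)
  rw [Psi, Psi, Finset.card_map, Finset.sum_map]
  congr 1
  · congr 1
    apply Finset.sum_congr rfl
    intro n _
    exact (h1 n).symm
  · congr 1
    -- both sums live on the indices fixed by the permutation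
    have e1 : ∑ n ∈ g.support \ B', TT (lam B'.card / 8) (g n) * S.a n x =
        ∑ n ∈ g.support, if n ∈ B' then 0 else TT (lam B'.card / 8) (g n) * S.a n x := by
      rw [Finset.sdiff_eq_filter, Finset.sum_filter]
      apply Finset.sum_congr rfl
      intro n _
      by_cases h : n ∈ B'
      · rw [if_neg (not_not.2 h), if_pos h]
      · rw [if_pos h, if_neg h]
    have e2 : ∑ n ∈ g.support \ B'.map π.toEmbedding, TT (lam B'.card / 8) (g n) * S.a n y =
        ∑ n ∈ g.support, if n ∈ B'.map π.toEmbedding then 0 else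
          TT (lam B'.card / 8) (g n) * S.a n y := by
      rw [Finset.sdiff_eq_filter, Finset.sum_filter]
      apply Finset.sum_congr rfl
      intro n _
      by_cases h : n ∈ B'.map π.toEmbedding
      · rw [if_neg (not_not.2 h), if_pos h]
      · rw [if_pos h, if_neg h]
    rw [e1, e2]
    apply Finset.sum_congr rfl
    intro n _
    have hnotA : ∀ k, k ∉ B' → ∃ m, ‖S.a k x‖ < ‖S.a m x‖ := by
      intro k hk
      have : k ∉ A := fun h => hk (Finset.mem_union_right _ h)
      rw [hAm] at this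
      push Not at this
      exact this
    have hmap : n ∈ B'.map π.toEmbedding ↔ π.symm n ∈ B' := by
      rw [Finset.mem_map]
      constructor
      · rintro ⟨k, hk, rfl⟩
        simpa using hk
      · intro h
        exact ⟨π.symm n, h, by simp⟩
    by_cases hB : n ∈ B'
    · rw [if_pos hB]
      by_cases hB2 : n ∈ B'.map π.toEmbedding
      · rw [if_pos hB2]
      · rw [if_neg hB2]
        rw [hmap] at hB2
        by_cases hy0 : S.a n y = 0
        · rw [hy0, mul_zero]
        · exfalso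
          have h3 : ‖S.a n y‖ = ‖S.a (π.symm n) x‖ := by
            rw [← h1 (π.symm n), Equiv.apply_symm_apply]
          have h4 : S.a (π.symm n) x ≠ 0 := by
            rw [← norm_ne_zero_iff, ← h3, norm_ne_zero_iff]
            exact hy0
          have h5 := (h2 _ h4 (hnotA _ hB2)).1
          rw [Equiv.apply_symm_apply] at h5
          exact hB2 (h5 ▸ hB)
    · rw [if_neg hB]
      by_cases hx0 : S.a n x = 0
      · rw [hx0, mul_zero]
        by_cases hB2 : n ∈ B'.map π.toEmbedding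
        · rw [if_pos hB2]
        · rw [if_neg hB2]
          rw [hmap] at hB2
          by_cases hy0 : S.a n y = 0
          · rw [hy0, mul_zero]
          · exfalso
            have h3 : ‖S.a n y‖ = ‖S.a (π.symm n) x‖ := by
              rw [← h1 (π.symm n), Equiv.apply_symm_apply]
            have h4 : S.a (π.symm n) x ≠ 0 := by
              rw [← norm_ne_zero_iff, ← h3, norm_ne_zero_iff]
              exact hy0
            have h5 := (h2 _ h4 (hnotA _ hB2)).1
            rw [Equiv.apply_symm_apply] at h5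
            rw [← h5] at h4
            exact h4 hx0
      · obtain ⟨h5, h6⟩ := h2 n hx0 (hnotA n hB)
        have h7 : π.symm n = n := by
          rw [Equiv.symm_apply_eq]
          exact h5.symm
        rw [if_neg (by rw [hmap, h7]; exact hB), h6]

theorem NN_eq_of_rearr (x y : H) (π : Equiv.Perm ℕ) (h1 : ∀ n, ‖S.a (π n) y‖ = ‖S.a n x‖)
    (h2 : ∀ k, S.a k x ≠ 0 → (∃ n, ‖S.a k x‖ < ‖S.a n x‖) → π k = k ∧ S.a k y = S.a k x) :
    NN S x = NN S y := by
  apply le_antisymm (NN_le_of_rearr S x y π h1 h2)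
  apply NN_le_of_rearr S y x π.symm
  · intro n
    rw [← h1 (π.symm n), Equiv.apply_symm_apply]
  · intro k hk hlt
    obtain ⟨n, hn⟩ := hlt
    have h3 : ‖S.a k y‖ = ‖S.a (π.symm k) x‖ := by
      rw [← h1 (π.symm k), Equiv.apply_symm_apply]
    have h4 : S.a (π.symm k) x ≠ 0 := by
      rw [← norm_ne_zero_iff, ← h3, norm_ne_zero_iff]
      exact hk
    have h3n : ‖S.a n y‖ = ‖S.a (π.symm n) x‖ := by
      rw [← h1 (π.symm n), Equiv.apply_symm_apply]
    obtain ⟨h5, h6⟩ := h2 _ h4 ⟨π.symm n, by rw [← h3, ← h3n]; exact hn⟩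
    rw [Equiv.apply_symm_apply] at h5
    rw [← h5] at h6
    exact ⟨h5.symm, h6.symm⟩

end

end Pool.Agent.H96cond
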