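import Mathlib
import Pool.Agent.H96cond.Core

open Filter Topology

namespace Pool.Agent.H96cond

lemma expands_unique {𝕜 : Type} [RCLike 𝕜] {H : Type} [NormedAddCommGroup H] [NormedSpace 𝕜 H]
    (S : Sys 𝕜 H) (a : ℕ → 𝕜) (v : H)
    (h : Tendsto (fun K : ℕ => ∑ n ∈ Finset.range K, a n • S.e n) atTop (𝓝 v)) (m : ℕ) :
    a m = S.a m v := by
  have h1 := ((S.a m).continuous.tendsto v).comp h
  have h2 : Tendsto (fun K : ℕ => (S.a m) (∑ n ∈ Finset.range K, a n • S.e n)) atTop (𝓝 (a m)) := by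
    apply tendsto_const_nhds.congr'
    filter_upwards [eventually_gt_atTop m] with K hK
    rw [a_sum, if_pos (Finset.mem_range.2 hK)]
  exact tendsto_nhds_unique h2 h1

lemma tendsto_iff_NN {𝕜 : Type} [RCLike 𝕜] {H : Type} [NormedAddCommGroup H] [NormedSpace 𝕜 H]
    (S : Sys 𝕜 H) {ι : Type} (l : Filter ι) (f : ι → H) (v : H) :
    Tendsto (fun i => NN S (f i - v)) l (𝓝 0) ↔ Tendsto f l (𝓝 v) := by
  have e : Tendsto f l (𝓝 v) ↔ Tendsto (fun i => ‖f i - v‖) l (𝓝 0) :=
    tendsto_iff_norm_sub_tendsto_zero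
  rw [e]
  constructor
  · intro h
    have h1 := h.const_mul 640
    rw [mul_zero] at h1
    refine squeeze_zero (fun _ => norm_nonneg _) (fun i => ?_) h1
    have := NN_lower S (f i - v)
    linarith
  · intro h
    have h1 := h.const_mul 6
    rw [mul_zero] at h1
    exact squeeze_zero (fun _ => NN_nonneg S _) (fun i => NN_le S _) h1

end Pool.Agent.H96cond
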