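import Mathlib
import Pool.Agent.H96cond.Uniq

open Filter Topology

namespace Pool.Agent.H96cond

/-- Hilbert spaces are reflexive. -/
theorem hilbert_reflexive (𝕜 : Type) [RCLike 𝕜] (H : Type) [NormedAddCommGroup H]
    [InnerProductSpace 𝕜 H] [CompleteSpace H] :
    Function.Surjective (NormedSpace.inclusionInDoubleDual 𝕜 H) := by
  intro Φ
  -- the functional `y ↦ conj (Φ ⟨y, ·⟩)` is linear and bounded
  let F : H →ₗ[𝕜] 𝕜 :=
    { toFun := fun y => (starRingEnd 𝕜) (Φ (InnerProductSpace.toDual 𝕜 H y))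
      map_add' := by
        intro x y
        rw [map_add, map_add, map_add]
      map_smul' := by
        intro c x
        rw [LinearIsometryEquiv.map_smulₛₗ, map_smul, smul_eq_mul, map_mul,
          starRingEnd_self_apply]
        rfl }
  let F' : StrongDual 𝕜 H := F.mkContinuous ‖Φ‖ (by
    intro y
    change ‖(starRingEnd 𝕜) (Φ (InnerProductSpace.toDual 𝕜 H y))‖ ≤ _
    rw [RCLike.norm_conj]
    refine (Φ.le_opNorm _).trans (le_of_eq ?_)
    rw [LinearIsometryEquiv.norm_map])
  refine ⟨(InnerProductSpace.toDual 𝕜 H).symm F', ?_⟩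
  ext f
  rw [NormedSpace.dual_def]
  obtain ⟨y, rfl⟩ := (InnerProductSpace.toDual 𝕜 H).surjective f
  rw [InnerProductSpace.toDual_apply_apply, ← inner_conj_symm, InnerProductSpace.toDual_symm_apply]
  change (starRingEnd 𝕜) ((starRingEnd 𝕜) (Φ (InnerProductSpace.toDual 𝕜 H y))) = _
  rw [starRingEnd_self_apply]

/-- Reflexivity is an isomorphic invariant. -/
theorem reflexive_transport {𝕜 : Type} [RCLike 𝕜] {H : Type} [NormedAddCommGroup H]
    [NormedSpace 𝕜 H] {X : Type} [NormedAddCommGroup X] [NormedSpace 𝕜 X] (L : H ≃L[𝕜] X)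
    (h : Function.Surjective (NormedSpace.inclusionInDoubleDual 𝕜 H)) :
    Function.Surjective (NormedSpace.inclusionInDoubleDual 𝕜 X) := by
  intro Φ
  let A : StrongDual 𝕜 H →L[𝕜] StrongDual 𝕜 X :=
    (ContinuousLinearMap.compL 𝕜 X H 𝕜).flip (L.symm : X →L[𝕜] H)
  obtain ⟨y, hy⟩ := h (Φ.comp A)
  refine ⟨L y, ?_⟩
  ext f
  rw [NormedSpace.dual_def]
  have h1 : NormedSpace.inclusionInDoubleDual 𝕜 H y (f.comp (L : H →L[𝕜] X)) =
      (Φ.comp A) (f.comp (L : H →L[𝕜] X)) := by rw [hy]
  rw [NormedSpace.dual_def] at h1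
  have h2 : A (f.comp (L : H →L[𝕜] X)) = f := by
    ext x
    change f (L (L.symm x)) = f x
    rw [L.apply_symm_apply]
  have h3 : Φ (A (f.comp (L : H →L[𝕜] X))) = Φ f := congrArg Φ h2
  exact h1.trans h3

/-- The space with the new norm. -/
def NewSp {𝕜 : Type} [RCLike 𝕜] {H : Type} [NormedAddCommGroup H] [NormedSpace 𝕜 H]
    (_ : Sys 𝕜 H) : Type := H

section

variable {𝕜 : Type} [RCLike 𝕜] {H : Type} [NormedAddCommGroup H] [NormedSpace 𝕜 H]
  (S : Sys 𝕜 H)

noncomputable instance : AddCommGroup (NewSp S) := inferInstanceAs (AddCommGroup H)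

noncomputable instance : Module 𝕜 (NewSp S) := inferInstanceAs (Module 𝕜 H)

/-- The identity map as a linear equivalence. -/
noncomputable def toNewL : H ≃ₗ[𝕜] NewSp S where
  toFun x := x
  invFun x := x
  map_add' _ _ := rfl
  map_smul' _ _ := rfl
  left_inv _ := rfl
  right_inv _ := rfl

noncomputable instance : Norm (NewSp S) := ⟨fun x => NN S ((toNewL S).symm x)⟩

lemma newSp_norm_def (x : NewSp S) : ‖x‖ = NN S ((toNewL S).symm x) := rfl

lemma newSp_core : NormedSpace.Core 𝕜 (NewSp S) where
  norm_nonneg x := NN_nonneg S _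
  norm_smul c x := by
    rw [newSp_norm_def, map_smul, NN_smul, newSp_norm_def]
  norm_triangle x y := by
    rw [newSp_norm_def, map_add, newSp_norm_def, newSp_norm_def]
    exact NN_add S _ _
  norm_eq_zero_iff x := by
    rw [newSp_norm_def]
    constructor
    · intro h
      have h1 := NN_lower S ((toNewL S).symm x)
      rw [h] at h1
      have h3 : ‖(toNewL S).symm x‖ = 0 := by
        have := norm_nonneg ((toNewL S).symm x)
        linarith
      have h4 : (toNewL S).symm x = 0 := norm_eq_zero.1 h3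
      rwa [LinearEquiv.map_eq_zero_iff] at h4
    · intro h
      rw [h, map_zero]
      have h1 := NN_le S (0 : H)
      rw [norm_zero, mul_zero] at h1
      exact le_antisymm h1 (NN_nonneg S _)

noncomputable instance : NormedAddCommGroup (NewSp S) := NormedAddCommGroup.ofCore (newSp_core S)

noncomputable instance : NormedSpace 𝕜 (NewSp S) := NormedSpace.ofCore (newSp_core S)

lemma newSp_norm (x : H) : ‖toNewL S x‖ = NN S x := by
  change NN S ((toNewL S).symm (toNewL S x)) = NN S x
  rw [LinearEquiv.symm_apply_apply]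

/-- The identity map. -/
noncomputable def toNew : H ≃L[𝕜] NewSp S :=
  (toNewL S).toContinuousLinearEquivOfBounds 6 640
    (fun x => by rw [newSp_norm]; exact NN_le S x) (fun x => by
      have h := NN_lower S ((toNewL S).symm x)
      have h1 := newSp_norm S ((toNewL S).symm x)
      rw [LinearEquiv.apply_symm_apply] at h1
      rw [h1]
      linarith)

lemma norm_toNew (x : H) : ‖toNew S x‖ = NN S x := newSp_norm S x

lemma newSp_complete [CompleteSpace H] : CompleteSpace (NewSp S) :=
  (completeSpace_congr (e := (toNew S).toEquiv) (toNew S).isUniformEmbedding).1 inferInstance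

end

end Pool.Agent.H96cond
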